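import Pool.Agent.H21.Semi2

/-!
# Strongly continuous semigroups, part 3: positivity of resolvents along eventually positive orbits

The vector valued Landau (Pringsheim) argument: if the orbit `T(t) f` lies in a closed cone `P` for
all `t ≥ t₀` and if all real `b ≥ 0` belong to the resolvent set, then `T(t) R(0, A) f ∈ P` for all
`t ≥ t₀`.
-/

namespace Pool.Agent.H21

open Filter Topology MeasureTheory Set
open scoped NNReal ENNReal

variable {E : Type*} [NormedAddCommGroup E] [NormedSpace ℂ E]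
variable {T : ℝ≥0 → E →L[ℂ] E}

/-- A closed convex cone in a complex normed space. -/
structure IsClosedCone (P : Set E) : Prop where
  closed : IsClosed P
  zero_mem : (0 : E) ∈ P
  add_mem : ∀ x ∈ P, ∀ y ∈ P, x + y ∈ P
  smul_mem : ∀ c : ℝ, 0 ≤ c → ∀ x ∈ P, (c : ℂ) • x ∈ P

namespace IsClosedCone

variable {P : Set E}

lemma sum_mem (hP : IsClosedCone P) {ι : Type*} (s : Finset ι) (f : ι → E)
    (h : ∀ i ∈ s, f i ∈ P) : ∑ i ∈ s, f i ∈ P := by
  classical
  induction s using Finset.induction_on with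
  | empty => simpa using hP.zero_mem
  | insert a s ha ih =>
    rw [Finset.sum_insert ha]
    exact hP.add_mem _ (h a (Finset.mem_insert_self _ _)) _
      (ih fun i hi => h i (Finset.mem_insert_of_mem hi))

lemma convex (hP : IsClosedCone P) : Convex ℝ P := by
  intro x hx y hy a b ha hb _
  have e1 : a • x = (a : ℂ) • x := (Complex.coe_smul a x).symm
  have e2 : b • y = (b : ℂ) • y := (Complex.coe_smul b y).symm
  rw [e1, e2]
  exact hP.add_mem _ (hP.smul_mem a ha x hx) _ (hP.smul_mem b hb y hy)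

lemma hasSum_mem (hP : IsClosedCone P) {f : ℕ → E} {x : E} (h : HasSum f x)
    (hf : ∀ i, f i ∈ P) : x ∈ P :=
  hP.closed.mem_of_tendsto h (Eventually.of_forall fun s => hP.sum_mem s f fun i _ => hf i)

lemma integral_mem [CompleteSpace E] (hP : IsClosedCone P) {F : ℝ → E} (hF : Continuous F)
    {a b : ℝ} (hab : a ≤ b) (h : ∀ s ∈ Icc a b, F s ∈ P) : ∫ s in a..b, F s ∈ P := by
  rcases hab.eq_or_lt with rfl | hlt
  · simpa using hP.zero_mem
  rw [intervalIntegral.integral_of_le hab, ← integral_Icc_eq_integral_Ioc]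
  have h1 : volume (Icc a b) ≠ 0 := by
    rw [Real.volume_Icc]; simp [hlt]
  have h2 : volume (Icc a b) ≠ ∞ := by
    rw [Real.volume_Icc]; simp
  have h3 := hP.convex.set_average_mem (μ := volume) (t := Icc a b) (f := F) hP.closed h1 h2
    ((ae_restrict_iff' measurableSet_Icc).mpr (Eventually.of_forall h))
    (hF.continuousOn.integrableOn_Icc)
  rw [setAverage_eq] at h3
  have h4 := hP.smul_mem (volume.real (Icc a b)) measureReal_nonneg _ h3
  rw [Complex.coe_smul, smul_smul, mul_inv_cancel₀, one_smul] at h4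
  · exact h4
  · rw [Measure.real, Real.volume_Icc, ENNReal.toReal_ofReal (by linarith)]
    linarith

end IsClosedCone

section Landau

variable [CompleteSpace E] {P : Set E}

/-- Positivity for large `b`. -/
lemma resolvent_pos_large (hT : IsC0Semigroup T) (hP : IsClosedCone P) {M ω : ℝ}
    (hM : ∀ t : ℝ≥0, ‖T t‖ ≤ M * Real.exp (ω * t)) {b : ℝ} (hb : ω < b) {R : E →L[ℂ] E}
    (hR : IsResolventAt T (b : ℂ) R) {f : E} {t₀ : ℝ≥0} (hf : ∀ t, t₀ ≤ t → T t f ∈ P) :
    ∀ t, t₀ ≤ t → T t (R f) ∈ P := by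
  intro N hN
  have hz : ω < (b : ℂ).re := by simpa using hb
  have h1 : Tendsto (fun t : ℝ => T N (R f) - T N (Complex.exp (-((b : ℂ) * t)) • T t.toNNReal (R f)))
      atTop (𝓝 (T N (R f) - T N 0)) :=
    tendsto_const_nhds.sub (((T N).continuous.tendsto 0).comp (tendsto_exp_orbit hM hz (R f)))
  rw [map_zero, sub_zero] at h1
  refine hP.closed.mem_of_tendsto h1 ?_
  filter_upwards [eventually_ge_atTop 0] with t ht
  rw [← map_sub, hR.laplace hT f ht, ← ContinuousLinearMap.intervalIntegral_comp_comm _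
    ((continuous_cexp_orbit hT _ _).intervalIntegrable _ _)]
  apply hP.integral_mem ((T N).continuous.comp (continuous_cexp_orbit hT _ _)) ht
  intro s hs
  simp only [Function.comp]
  rw [map_smul, ← hT.apply_add]
  have e : Complex.exp (-((b : ℂ) * s)) = ((Real.exp (-(b * s)) : ℝ) : ℂ) := by push_cast; rfl
  rw [e]
  apply hP.smul_mem _ (Real.exp_nonneg _)
  exact hf _ (hN.trans (le_add_of_nonneg_right zero_le))

/-- Neumann series expansion of the resolvent to the left. -/
lemma resolvent_hasSum {a b : ℝ} {Ra Rb : E →L[ℂ] E} (ha : IsResolventAt T (a : ℂ) Ra)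
    (hb : IsResolventAt T (b : ℂ) Rb) (hab : a ≤ b) (h : (b - a) * ‖Rb‖ < 1) (x : E) :
    HasSum (fun j : ℕ => (((b - a) ^ j : ℝ) : ℂ) • (Rb ^ (j + 1)) x) (Ra x) := by
  set c : ℂ := ((b - a : ℝ) : ℂ) with hc
  have hn : ‖c • Rb‖ < 1 := by
    rw [norm_smul, hc, Complex.norm_real, Real.norm_eq_abs, abs_of_nonneg (by linarith)]
    exact h
  have h1 : Ra * (1 - c • Rb) = Rb := by
    ext y
    have h2 := ha.identity hb y
    have h3 : (Ra * (1 - c • Rb)) y = Ra y - c • Ra (Rb y) := by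
      simp [mul_sub]
    rw [h3, hc]
    push_cast
    rw [← h2]; abel
  have h2 : Summable (fun j : ℕ => (c • Rb) ^ j) := summable_geometric_of_norm_lt_one hn
  have h3 : (1 - c • Rb) * ∑' j : ℕ, (c • Rb) ^ j = 1 := mul_neg_geom_series _ hn
  have h4 : Ra = Rb * ∑' j : ℕ, (c • Rb) ^ j := by
    calc Ra = Ra * ((1 - c • Rb) * ∑' j : ℕ, (c • Rb) ^ j) := by rw [h3, mul_one]
      _ = _ := by rw [← mul_assoc, h1]
  have h5 : HasSum (fun j : ℕ => Rb * (c • Rb) ^ j) Ra := by
    have := h2.hasSum.mul_left Rb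
    rwa [← h4] at this
  have h6 := (ContinuousLinearMap.apply ℂ E x).hasSum h5
  have e : (fun j : ℕ => (((b - a) ^ j : ℝ) : ℂ) • (Rb ^ (j + 1)) x) =
      fun j : ℕ => (ContinuousLinearMap.apply ℂ E x) (Rb * (c • Rb) ^ j) := by
    funext j
    rw [ContinuousLinearMap.apply_apply, smul_pow, mul_smul_comm, ← pow_succ', hc]
    push_cast
    rfl
  rw [e]
  exact h6

/-- Positivity propagates to the left. -/
lemma resolvent_pos_step (hP : IsClosedCone P) {a b : ℝ} {Ra Rb : E →L[ℂ] E}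
    (ha : IsResolventAt T (a : ℂ) Ra)
    (hb : IsResolventAt T (b : ℂ) Rb) (hab : a ≤ b) (h : (b - a) * ‖Rb‖ < 1) (S : E →L[ℂ] E) (f : E)
    (hf : ∀ k : ℕ, S ((Rb ^ k) f) ∈ P) : ∀ k : ℕ, S ((Ra ^ k) f) ∈ P := by
  have key : ∀ k m : ℕ, S ((Ra ^ k) ((Rb ^ m) f)) ∈ P := by
    intro k
    induction k with
    | zero => intro m; simpa using hf m
    | succ k ih =>
      intro m
      have h1 := resolvent_hasSum ha hb hab h ((Rb ^ m) f)
      have h2 := (S ∘L (Ra ^ k)).hasSum h1
      have h3 : S ((Ra ^ (k + 1)) ((Rb ^ m) f)) = (S ∘L (Ra ^ k)) (Ra ((Rb ^ m) f)) := by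
        rw [pow_succ]; rfl
      rw [h3]
      refine hP.hasSum_mem h2 ?_
      intro j
      rw [map_smul]
      apply hP.smul_mem _ (pow_nonneg (by linarith) _)
      have h4 := ih (j + 1 + m)
      rw [pow_add] at h4
      exact h4
  intro k
  simpa using key k 0

/-- Resolvents are bounded on compact intervals. -/
lemma resolvent_bounded {Rf : ℝ → E →L[ℂ] E} (hR : ∀ b : ℝ, 0 ≤ b → IsResolventAt T (b : ℂ) (Rf b))
    (B : ℝ) : ∃ K : ℝ, 0 < K ∧ ∀ b ∈ Icc (0 : ℝ) B, ‖Rf b‖ ≤ K := by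
  have h : ∃ K : ℝ, ∀ b ∈ Icc (0 : ℝ) B, ‖Rf b‖ ≤ K := by
    refine isCompact_Icc.induction_on (p := fun s : Set ℝ => ∃ K : ℝ, ∀ b ∈ s, ‖Rf b‖ ≤ K)
      ⟨0, by simp⟩ ?_ ?_ ?_
    · rintro s t hst ⟨K, hK⟩
      exact ⟨K, fun b hb => hK b (hst hb)⟩
    · rintro s t ⟨K, hK⟩ ⟨K', hK'⟩
      refine ⟨max K K', fun b hb => ?_⟩
      rcases hb with hb | hb
      · exact (hK b hb).trans (le_max_left _ _)
      · exact (hK' b hb).trans (le_max_right _ _)
    · intro b₀ hb₀
      set c := ‖Rf b₀‖ with hc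
      have hc0 : 0 ≤ c := norm_nonneg _
      refine ⟨Metric.ball b₀ (1 / (2 * (c + 1))) ∩ Icc 0 B, ?_, 2 * c, ?_⟩
      · exact inter_mem (mem_nhdsWithin_of_mem_nhds (Metric.ball_mem_nhds _ (by positivity)))
          self_mem_nhdsWithin
      · rintro b ⟨hb, hb'⟩
        rw [Metric.mem_ball, Real.dist_eq] at hb
        have h1 : |b - b₀| * c ≤ 1 / 2 := by
          have : |b - b₀| * (c + 1) ≤ 1 / (2 * (c + 1)) * (c + 1) := by gcongr
          have h2 : 1 / (2 * (c + 1)) * (c + 1) = 1 / 2 := by field_simp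
          have h3 : |b - b₀| * c ≤ |b - b₀| * (c + 1) := by
            apply mul_le_mul_of_nonneg_left (by linarith) (abs_nonneg _)
          linarith
        have h2 : ‖Rf b‖ ≤ c + 1 / 2 * ‖Rf b‖ := by
          apply ContinuousLinearMap.opNorm_le_bound _ (by positivity)
          intro x
          have h3 := (hR b hb'.1).identity (hR b₀ hb₀.1) x
          have h4 : Rf b x = Rf b₀ x + ((b₀ : ℂ) - b) • Rf b (Rf b₀ x) := by rw [← h3]; abel
          rw [h4]
          calc ‖Rf b₀ x + ((b₀ : ℂ) - b) • Rf b (Rf b₀ x)‖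
              ≤ ‖Rf b₀ x‖ + ‖((b₀ : ℂ) - b) • Rf b (Rf b₀ x)‖ := norm_add_le _ _
            _ ≤ c * ‖x‖ + |b - b₀| * (‖Rf b‖ * (c * ‖x‖)) := by
                gcongr
                · exact (Rf b₀).le_opNorm x
                · rw [norm_smul]
                  have h5 : ‖(b₀ : ℂ) - b‖ = |b - b₀| := by
                    rw [← Complex.ofReal_sub, Complex.norm_real, Real.norm_eq_abs, abs_sub_comm]
                  rw [h5]
                  gcongr
                  refine ((Rf b).le_opNorm _).trans ?_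
                  gcongr
                  exact (Rf b₀).le_opNorm x
            _ = c * ‖x‖ + (|b - b₀| * c) * (‖Rf b‖ * ‖x‖) := by ring
            _ ≤ c * ‖x‖ + (1 / 2) * (‖Rf b‖ * ‖x‖) := by gcongr
            _ = (c + 1 / 2 * ‖Rf b‖) * ‖x‖ := by ring
        linarith
  obtain ⟨K, hK⟩ := h
  exact ⟨max K 1, lt_max_of_lt_right one_pos, fun b hb => (hK b hb).trans (le_max_left _ _)⟩

/-- **Landau's theorem for eventually positive orbits.** -/
theorem resolvent_zero_pos (hT : IsC0Semigroup T) (hP : IsClosedCone P)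
    (hres : ∀ b : ℝ, 0 ≤ b → ∃ R : E →L[ℂ] E, IsResolventAt T (b : ℂ) R)
    {R₀ : E →L[ℂ] E} (hR₀ : IsResolventAt T 0 R₀)
    {f : E} {t₀ : ℝ≥0} (hf : ∀ t, t₀ ≤ t → T t f ∈ P) :
    ∀ t, t₀ ≤ t → T t (R₀ f) ∈ P := by
  classical
  obtain ⟨M, ω, _, hω, hM⟩ := hT.exists_growth
  choose! Rf hRf using hres
  set B : ℝ := ω + 1 with hB
  obtain ⟨K, hK0, hK⟩ := resolvent_bounded hRf B
  have hlarge : ∀ k : ℕ, ∀ t, t₀ ≤ t → T t (((Rf B) ^ k) f) ∈ P := by
    intro k
    induction k with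
    | zero => intro t ht; simpa using hf t ht
    | succ k ih =>
      intro t ht
      have h1 := resolvent_pos_large hT hP hM (b := B) (by rw [hB]; linarith)
        (hRf B (by rw [hB]; linarith)) ih t ht
      have h2 : ((Rf B) ^ (k + 1)) f = Rf B (((Rf B) ^ k) f) := by rw [pow_succ']; rfl
      rw [h2]; exact h1
  set δ : ℝ := 1 / (2 * K) with hδ
  have hδ0 : 0 < δ := by positivity
  have hstep : ∀ n : ℕ, ∀ b : ℝ, 0 ≤ b → b ≤ B → B - n * δ ≤ b →
      ∀ k : ℕ, ∀ t, t₀ ≤ t → T t (((Rf b) ^ k) f) ∈ P := by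
    intro n
    induction n with
    | zero =>
      intro b _ hbB hb
      have : b = B := by
        apply le_antisymm hbB; simpa using hb
      rw [this]; exact hlarge
    | succ n ih =>
      intro b hb0 hbB hb k t ht
      set b' := min (b + δ) B with hb'
      have hbb' : b ≤ b' := le_min (by linarith) hbB
      have hb'B : b' ≤ B := min_le_right _ _
      have hb'n : B - n * δ ≤ b' := by
        apply le_min
        · push_cast at hb; linarith
        · have : 0 ≤ (n : ℝ) * δ := by positivity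
          linarith
      have hb'0 : 0 ≤ b' := hb0.trans hbb'
      have h1 : (b' - b) * ‖Rf b'‖ < 1 := by
        have h2 : b' - b ≤ δ := by
          have := min_le_left (b + δ) B
          linarith
        have h3 : ‖Rf b'‖ ≤ K := hK b' ⟨hb'0, hb'B⟩
        calc (b' - b) * ‖Rf b'‖ ≤ δ * K := by gcongr
          _ = 1 / 2 := by rw [hδ]; field_simp
          _ < 1 := by norm_num
      exact resolvent_pos_step hP (hRf b hb0) (hRf b' hb'0) hbb' h1 (T t) f
        (fun m => ih b' hb'0 hb'B hb'n m t ht) k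
  obtain ⟨n, hn⟩ := exists_nat_gt (B / δ)
  have hn' : B - n * δ ≤ 0 := by
    rw [div_lt_iff₀ hδ0] at hn; linarith
  have h0 : IsResolventAt T ((0 : ℝ) : ℂ) (Rf 0) := hRf 0 le_rfl
  rw [Complex.ofReal_zero] at h0
  have h1 : Rf 0 = R₀ := h0.unique hR₀
  intro t ht
  have h2 := hstep n 0 le_rfl (by rw [hB]; linarith) hn' 1 t ht
  rw [pow_one, h1] at h2
  exact h2

end Landau

end Pool.Agent.H21
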