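import Mathlib

/-!
# Strongly continuous semigroups: definitions and basic facts

General facts on `C₀`-semigroups on complex Banach spaces: generator, resolvent set, spectral bound,
growth bound, the Laplace transform identity and the resolvent identity.
-/

namespace Pool.Agent.H21

open Filter Topology MeasureTheory Set
open scoped NNReal ENNReal

variable {E : Type*} [NormedAddCommGroup E] [NormedSpace ℂ E]

/-- A strongly continuous one-parameter semigroup of bounded linear operators on `E`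
(a `C₀`-semigroup): `T 0 = I`, `T (s + t) = T s T t` and every orbit `t ↦ T t x` is continuous
on `[0, ∞)`. -/
structure IsC0Semigroup (T : ℝ≥0 → E →L[ℂ] E) : Prop where
  map_zero : T 0 = 1
  map_add : ∀ s t, T (s + t) = T s * T t
  cont : ∀ x, Continuous fun t => T t x

/-- The graph of the generator `A` of `T`: `GenRel T x y` says that `x` lies in the domain of `A`
and `A x = y`, i.e. `(T t x - x) / t → y` as `t ↓ 0`. -/
def GenRel (T : ℝ≥0 → E →L[ℂ] E) (x y : E) : Prop :=
  Tendsto (fun t : ℝ≥0 => ((t : ℝ) : ℂ)⁻¹ • (T t x - x)) (𝓝[>] 0) (𝓝 y)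

/-- `R` is the resolvent operator `(z - A)⁻¹` of the generator `A` of `T` at the point `z`. -/
def IsResolventAt (T : ℝ≥0 → E →L[ℂ] E) (z : ℂ) (R : E →L[ℂ] E) : Prop :=
  (∀ y, GenRel T (R y) (z • R y - y)) ∧ ∀ x y, GenRel T x y → R (z • x - y) = x

/-- The spectrum of the generator `A` of `T`: the set of complex `z` for which `z - A` has no
bounded inverse. -/
def genSpectrum (T : ℝ≥0 → E →L[ℂ] E) : Set ℂ := {z | ¬ ∃ R : E →L[ℂ] E, IsResolventAt T z R}

/-- The spectral bound `s(A) = sup {Re z : z ∈ σ(A)}` (it is `-∞` if the spectrum is empty). -/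
noncomputable def spectralBound (T : ℝ≥0 → E →L[ℂ] E) : EReal :=
  ⨆ z ∈ genSpectrum T, ((z.re : ℝ) : EReal)

/-- The growth bound `ω₀(A) = inf {ω : ∃ M, ∀ t ≥ 0, ‖T t‖ ≤ M e^{ω t}}`. -/
noncomputable def growthBound (T : ℝ≥0 → E →L[ℂ] E) : EReal :=
  sInf {w : EReal | ∃ ω : ℝ, w = (ω : EReal) ∧ ∃ M : ℝ, ∀ t : ℝ≥0, ‖T t‖ ≤ M * Real.exp (ω * t)}

variable {T : ℝ≥0 → E →L[ℂ] E}

namespace IsC0Semigroup

lemma apply_add (hT : IsC0Semigroup T) (s t : ℝ≥0) (x : E) : T (s + t) x = T s (T t x) := by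
  rw [hT.map_add]; rfl

lemma comm (hT : IsC0Semigroup T) (s t : ℝ≥0) (x : E) : T s (T t x) = T t (T s x) := by
  rw [← hT.apply_add, ← hT.apply_add, add_comm]

/-- Local boundedness. -/
lemma exists_local_bound [CompleteSpace E] (hT : IsC0Semigroup T) (a : ℝ≥0) :
    ∃ M : ℝ, 1 ≤ M ∧ ∀ t ≤ a, ‖T t‖ ≤ M := by
  have h : ∀ x, ∃ C, ∀ i : Icc (0 : ℝ≥0) a, ‖T i.1 x‖ ≤ C := by
    intro x
    have hc : IsCompact ((fun t => T t x) '' Icc (0 : ℝ≥0) a) :=
      (isCompact_Icc).image (hT.cont x)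
    obtain ⟨C, hC⟩ := hc.isBounded.exists_norm_le
    exact ⟨C, fun i => hC _ ⟨i.1, i.2, rfl⟩⟩
  obtain ⟨C, hC⟩ := banach_steinhaus h
  refine ⟨max C 1, le_max_right _ _, fun t ht => le_trans (hC ⟨t, ⟨zero_le, ht⟩⟩) (le_max_left _ _)⟩

/-- Exponential growth estimate. -/
lemma exists_growth [CompleteSpace E] (hT : IsC0Semigroup T) :
    ∃ M ω : ℝ, 1 ≤ M ∧ 0 ≤ ω ∧ ∀ t : ℝ≥0, ‖T t‖ ≤ M * Real.exp (ω * t) := by
  obtain ⟨M, hM1, hM⟩ := hT.exists_local_bound 1
  refine ⟨M, Real.log M, hM1, Real.log_nonneg hM1, ?_⟩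
  have hM0 : 0 < M := by linarith
  have key : ∀ n : ℕ, ∀ t : ℝ≥0, t ≤ 1 → ‖T (n + t)‖ ≤ M * M ^ n := by
    intro n
    induction n with
    | zero => intro t ht; simpa using hM t ht
    | succ k ih =>
      intro t ht
      have : ((k + 1 : ℕ) : ℝ≥0) + t = 1 + (k + t) := by push_cast; ring
      rw [this, hT.map_add]
      calc ‖T 1 * T (k + t)‖ ≤ ‖T 1‖ * ‖T (k + t)‖ := norm_mul_le _ _
        _ ≤ M * (M * M ^ k) := by
            gcongr
            · exact hM 1 le_rfl
            · exact ih t ht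
        _ = M * M ^ (k + 1) := by ring
  intro t
  have h1 : t = (⌊t⌋₊ : ℝ≥0) + (t - ⌊t⌋₊) := by
    rw [add_tsub_cancel_of_le]; exact Nat.floor_le zero_le
  have h2 : t - ⌊t⌋₊ ≤ 1 := by
    rw [tsub_le_iff_right]; rw [add_comm]; exact (Nat.lt_floor_add_one t).le
  have h3 := key ⌊t⌋₊ _ h2
  rw [← h1] at h3
  refine h3.trans ?_
  gcongr
  rw [← Real.rpow_natCast, Real.rpow_def_of_pos hM0]
  apply Real.exp_le_exp.mpr
  apply mul_le_mul_of_nonneg_left _ (Real.log_nonneg hM1)
  exact_mod_cast Nat.floor_le (zero_le (a := t))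

end IsC0Semigroup

/-- The generator commutes with the semigroup. -/
lemma GenRel.map (hT : IsC0Semigroup T) {x y : E} (h : GenRel T x y) (s : ℝ≥0) :
    GenRel T (T s x) (T s y) := by
  have h1 := ((T s).continuous.tendsto y).comp h
  refine h1.congr ?_
  intro t
  simp only [Function.comp, map_smul, map_sub]
  rw [hT.comm]

lemma GenRel.add {x y x' y' : E} (h : GenRel T x y) (h' : GenRel T x' y') :
    GenRel T (x + x') (y + y') := by
  refine (Tendsto.add h h').congr ?_
  intro t
  rw [map_add, ← smul_add]; congr 1; abel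

lemma GenRel.smul {x y : E} (h : GenRel T x y) (c : ℂ) : GenRel T (c • x) (c • y) := by
  refine (Tendsto.const_smul h c).congr ?_
  intro t
  rw [map_smul, smul_comm, smul_sub]

lemma GenRel.unique {x y y' : E} (h : GenRel T x y) (h' : GenRel T x y') : y = y' :=
  tendsto_nhds_unique h h'

lemma GenRel.of_eq {x y y' : E} (h : GenRel T x y) (e : y = y') : GenRel T x y' := e ▸ h

/-- The resolvent commutes with the semigroup. -/
lemma IsResolventAt.comm (hT : IsC0Semigroup T) {z : ℂ} {R : E →L[ℂ] E} (hR : IsResolventAt T z R)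
    (t : ℝ≥0) (y : E) : R (T t y) = T t (R y) := by
  have h1 := (hR.1 y).map hT t
  have h2 := hR.2 _ _ h1
  have h3 : z • T t (R y) - T t (z • R y - y) = T t y := by
    rw [map_sub, map_smul]; abel
  rw [h3] at h2
  exact h2

lemma IsResolventAt.unique {z : ℂ} {R R' : E →L[ℂ] E} (hR : IsResolventAt T z R)
    (hR' : IsResolventAt T z R') : R = R' := by
  ext y
  have h1 := hR.1 y
  have h2 := hR'.2 _ _ h1
  rw [← h2]; congr 1; abel

/-- Resolvent identity `R(a) - R(b) = (b - a) R(a) R(b)`. -/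
lemma IsResolventAt.identity {a b : ℂ} {Ra Rb : E →L[ℂ] E} (ha : IsResolventAt T a Ra)
    (hb : IsResolventAt T b Rb) (y : E) : Ra y - Rb y = (b - a) • Ra (Rb y) := by
  have h1 := hb.1 y
  have h2 := ha.2 _ _ h1
  rw [map_sub, map_smul, map_sub, map_smul] at h2
  have : Rb y = a • Ra (Rb y) - (b • Ra (Rb y) - Ra y) := h2.symm
  rw [sub_smul]
  nth_rewrite 1 [this]
  abel

/-- Real-time orbit. -/
lemma hasDerivWithinAt_orbit (hT : IsC0Semigroup T) {x y : E} (h : GenRel T x y) {s : ℝ}
    (hs : 0 ≤ s) :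
    HasDerivWithinAt (fun s : ℝ => T s.toNNReal x) (T s.toNNReal y) (Ioi s) s := by
  rw [hasDerivWithinAt_iff_tendsto_slope' (by simp)]
  have h1 := ((T s.toNNReal).continuous.tendsto y).comp h
  have h2 : Tendsto (fun u : ℝ => (u - s).toNNReal) (𝓝[>] s) (𝓝[>] 0) := by
    apply tendsto_nhdsWithin_of_tendsto_nhds_of_eventually_within
    · have : Tendsto (fun u : ℝ => (u - s).toNNReal) (𝓝 s) (𝓝 (s - s).toNNReal) :=
        (continuous_real_toNNReal.comp (continuous_id.sub continuous_const)).tendsto s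
      simp only [sub_self, Real.toNNReal_zero] at this
      exact this.mono_left nhdsWithin_le_nhds
    · filter_upwards [self_mem_nhdsWithin] with u hu
      simpa using hu
  refine (h1.comp h2).congr' ?_
  filter_upwards [self_mem_nhdsWithin] with u hu
  have hu' : s < u := hu
  simp only [Function.comp, slope, vsub_eq_sub]
  have e : ((u - s).toNNReal : ℝ) = u - s := Real.coe_toNNReal _ (by linarith)
  rw [map_smul, map_sub, ← hT.apply_add, e]
  have e2 : s.toNNReal + (u - s).toNNReal = u.toNNReal := by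
    rw [← Real.toNNReal_add hs (by linarith)]; congr 1; ring
  rw [e2]
  rw [← Complex.ofReal_inv]
  exact (RCLike.real_smul_eq_coe_smul (K := ℂ) (u - s)⁻¹ _).symm

lemma continuous_orbit (hT : IsC0Semigroup T) (x : E) :
    Continuous (fun s : ℝ => T s.toNNReal x) :=
  (hT.cont x).comp continuous_real_toNNReal

/-- Fundamental identity: `R y - e^{-z t} T(t) R y = ∫₀ᵗ e^{-z s} T(s) y ds`. -/
lemma IsResolventAt.laplace [CompleteSpace E] (hT : IsC0Semigroup T) {z : ℂ} {R : E →L[ℂ] E}
    (hR : IsResolventAt T z R) (y : E) {t : ℝ} (ht : 0 ≤ t) :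
    R y - Complex.exp (-(z * t)) • T t.toNNReal (R y) =
      ∫ s in (0 : ℝ)..t, Complex.exp (-(z * s)) • T s.toNNReal y := by
  set g : ℝ → E := fun s => Complex.exp (-(z * s)) • T s.toNNReal (R y) with hg
  have hcexp : Continuous fun s : ℝ => Complex.exp (-(z * s)) := by fun_prop
  have hgc : Continuous g := hcexp.smul (continuous_orbit hT _)
  have hg' : Continuous fun s : ℝ => Complex.exp (-(z * s)) • T s.toNNReal y :=
    hcexp.smul (continuous_orbit hT _)
  have hderiv : ∀ s ∈ Ioo (0 : ℝ) t, HasDerivWithinAt g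
      (-(Complex.exp (-(z * s)) • T s.toNNReal y)) (Ioi s) s := by
    intro s hs
    have h1 := hasDerivWithinAt_orbit hT (hR.1 y) hs.1.le
    have h2 : HasDerivWithinAt (fun s : ℝ => Complex.exp (-(z * s)))
        (Complex.exp (-(z * s)) * (-z)) (Ioi s) s := by
      have h3 : HasDerivAt (fun s : ℝ => -(z * (s : ℂ))) (-z) s := by
        have h5 := ((Complex.ofRealCLM.hasDerivAt (x := s)).const_mul z).neg
        have h6 : (z * Complex.ofRealCLM 1) = z := by simp
        rw [h6] at h5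
        exact h5
      exact (h3.cexp).hasDerivWithinAt
    have h4 := h2.smul h1
    refine h4.congr_deriv ?_
    simp only [map_sub, map_smul, smul_sub]
    rw [smul_smul, mul_neg, neg_smul]
    abel
  have := intervalIntegral.integral_eq_sub_of_hasDeriv_right (a := 0) (b := t) (f := g)
    (f' := fun s => -(Complex.exp (-(z * s)) • T s.toNNReal y)) hgc.continuousOn
    (by rw [min_eq_left ht, max_eq_right ht]; exact hderiv)
    (hg'.neg.intervalIntegrable _ _)
  rw [intervalIntegral.integral_neg] at this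
  have h7 : (∫ s in (0 : ℝ)..t, Complex.exp (-(z * s)) • T s.toNNReal y) = g 0 - g t := by
    rw [← neg_sub, ← this, neg_neg]
  rw [h7]
  simp [hg, hT.map_zero]

end Pool.Agent.H21
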