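import Pool.Agent.H21.Semi

/-!
# Strongly continuous semigroups, part 2: resolvents for large real part, rescaling
-/

namespace Pool.Agent.H21

open Filter Topology MeasureTheory Set
open scoped NNReal ENNReal

variable {E : Type*} [NormedAddCommGroup E] [NormedSpace ℂ E]
variable {T : ℝ≥0 → E →L[ℂ] E}

lemma norm_cexp_neg_mul (z : ℂ) (t : ℝ) : ‖Complex.exp (-(z * t))‖ = Real.exp (-(z.re * t)) := by
  rw [Complex.norm_exp]; simp

lemma continuous_cexp_orbit (hT : IsC0Semigroup T) (z : ℂ) (x : E) :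
    Continuous (fun s : ℝ => Complex.exp (-(z * s)) • T s.toNNReal x) := by
  have hcexp : Continuous fun s : ℝ => Complex.exp (-(z * s)) := by fun_prop
  exact hcexp.smul (continuous_orbit hT _)

/-- The fundamental identity for elements of the domain. -/
lemma GenRel.laplace [CompleteSpace E] (hT : IsC0Semigroup T) (z : ℂ) {x x' : E}
    (h : GenRel T x x') {t : ℝ} (ht : 0 ≤ t) :
    x - Complex.exp (-(z * t)) • T t.toNNReal x =
      ∫ s in (0 : ℝ)..t, Complex.exp (-(z * s)) • T s.toNNReal (z • x - x') := by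
  set g : ℝ → E := fun s => Complex.exp (-(z * s)) • T s.toNNReal x with hg
  have hgc : Continuous g := continuous_cexp_orbit hT z x
  have hg' : Continuous fun s : ℝ => Complex.exp (-(z * s)) • T s.toNNReal (z • x - x') :=
    continuous_cexp_orbit hT z _
  have hderiv : ∀ s ∈ Ioo (0 : ℝ) t, HasDerivWithinAt g
      (-(Complex.exp (-(z * s)) • T s.toNNReal (z • x - x'))) (Ioi s) s := by
    intro s hs
    have h1 := hasDerivWithinAt_orbit hT h hs.1.le
    have h2 : HasDerivWithinAt (fun s : ℝ => Complex.exp (-(z * s)))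
        (Complex.exp (-(z * s)) * (-z)) (Ioi s) s := by
      have h3 : HasDerivAt (fun s : ℝ => -(z * (s : ℂ))) (-z) s := by
        have h5 := ((Complex.ofRealCLM.hasDerivAt (x := s)).const_mul z).neg
        have h6 : (z * Complex.ofRealCLM 1) = z := by simp
        rw [h6] at h5
        exact h5
      exact (h3.cexp).hasDerivWithinAt
    have h4 := h2.smul h1
    refine h4.congr_deriv ?_
    simp only [map_sub, map_smul, smul_sub]
    rw [smul_smul, mul_neg, neg_smul]
    abel
  have := intervalIntegral.integral_eq_sub_of_hasDeriv_right (a := 0) (b := t) (f := g)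
    (f' := fun s => -(Complex.exp (-(z * s)) • T s.toNNReal (z • x - x'))) hgc.continuousOn
    (by rw [min_eq_left ht, max_eq_right ht]; exact hderiv)
    (hg'.neg.intervalIntegrable _ _)
  rw [intervalIntegral.integral_neg] at this
  have h7 : (∫ s in (0 : ℝ)..t, Complex.exp (-(z * s)) • T s.toNNReal (z • x - x')) =
      g 0 - g t := by
    rw [← neg_sub (g t) (g 0), ← this, neg_neg]
  rw [h7]
  simp [hg, hT.map_zero]

section Laplace

variable [CompleteSpace E] {M ω : ℝ}

lemma laplace_bound (hM : ∀ t : ℝ≥0, ‖T t‖ ≤ M * Real.exp (ω * t)) (z : ℂ) (x : E) {s : ℝ}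
    (hs : 0 ≤ s) :
    ‖Complex.exp (-(z * s)) • T s.toNNReal x‖ ≤ M * ‖x‖ * Real.exp (-(z.re - ω) * s) := by
  rw [norm_smul, norm_cexp_neg_mul]
  have h1 : ‖T s.toNNReal x‖ ≤ M * Real.exp (ω * s) * ‖x‖ := by
    refine ((T s.toNNReal).le_opNorm x).trans ?_
    have := hM s.toNNReal
    rw [Real.coe_toNNReal s hs] at this
    gcongr
  calc Real.exp (-(z.re * s)) * ‖T s.toNNReal x‖
      ≤ Real.exp (-(z.re * s)) * (M * Real.exp (ω * s) * ‖x‖) := by gcongr
    _ = M * ‖x‖ * (Real.exp (-(z.re * s)) * Real.exp (ω * s)) := by ring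
    _ = M * ‖x‖ * Real.exp (-(z.re - ω) * s) := by rw [← Real.exp_add]; congr 2; ring

lemma laplace_integrable (hT : IsC0Semigroup T) (hM : ∀ t : ℝ≥0, ‖T t‖ ≤ M * Real.exp (ω * t))
    {z : ℂ} (hz : ω < z.re) (x : E) :
    IntegrableOn (fun s : ℝ => Complex.exp (-(z * s)) • T s.toNNReal x) (Ioi 0) := by
  have h1 : IntegrableOn (fun s : ℝ => M * ‖x‖ * Real.exp (-(z.re - ω) * s)) (Ioi 0) :=
    (exp_neg_integrableOn_Ioi 0 (by linarith)).const_mul _
  refine Integrable.mono' h1 (continuous_cexp_orbit hT z x).aestronglyMeasurable ?_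
  refine (ae_restrict_iff' measurableSet_Ioi).mpr (Eventually.of_forall ?_)
  intro s hs
  exact laplace_bound hM z x (le_of_lt hs)

/-- The Laplace transform of the semigroup as a bounded operator. -/
noncomputable def laplaceOp (hT : IsC0Semigroup T) (hM : ∀ t : ℝ≥0, ‖T t‖ ≤ M * Real.exp (ω * t))
    {z : ℂ} (hz : ω < z.re) : E →L[ℂ] E :=
  LinearMap.mkContinuous
    { toFun := fun x => ∫ s in Ioi (0 : ℝ), Complex.exp (-(z * s)) • T s.toNNReal x
      map_add' := by
        intro x y
        rw [← integral_add (laplace_integrable hT hM hz x) (laplace_integrable hT hM hz y)]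
        congr 1; ext s; rw [map_add, smul_add]
      map_smul' := by
        intro c x
        rw [RingHom.id_apply, ← integral_smul]
        congr 1; ext s; rw [map_smul, smul_comm] }
    (M * ∫ s in Ioi (0 : ℝ), Real.exp (-(z.re - ω) * s))
    (by
      intro x
      have h1 : IntegrableOn (fun s : ℝ => M * ‖x‖ * Real.exp (-(z.re - ω) * s)) (Ioi 0) :=
        (exp_neg_integrableOn_Ioi 0 (by linarith)).const_mul _
      have h2 : ‖∫ s in Ioi (0 : ℝ), Complex.exp (-(z * s)) • T s.toNNReal x‖ ≤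
          ∫ s in Ioi (0 : ℝ), M * ‖x‖ * Real.exp (-(z.re - ω) * s) := by
        refine norm_integral_le_of_norm_le h1 ?_
        refine (ae_restrict_iff' measurableSet_Ioi).mpr (Eventually.of_forall ?_)
        intro s hs
        exact laplace_bound hM z x (le_of_lt hs)
      rw [integral_const_mul] at h2
      calc _ ≤ _ := h2
        _ = _ := by ring)

lemma laplaceOp_apply (hT : IsC0Semigroup T) (hM : ∀ t : ℝ≥0, ‖T t‖ ≤ M * Real.exp (ω * t))
    {z : ℂ} (hz : ω < z.re) (x : E) : laplaceOp hT hM hz x =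
      ∫ s in Ioi (0 : ℝ), Complex.exp (-(z * s)) • T s.toNNReal x := rfl

lemma laplaceOp_tendsto (hT : IsC0Semigroup T) (hM : ∀ t : ℝ≥0, ‖T t‖ ≤ M * Real.exp (ω * t))
    {z : ℂ} (hz : ω < z.re) (x : E) :
    Tendsto (fun t : ℝ => ∫ s in (0 : ℝ)..t, Complex.exp (-(z * s)) • T s.toNNReal x) atTop
      (𝓝 (laplaceOp hT hM hz x)) :=
  intervalIntegral_tendsto_integral_Ioi 0 (laplace_integrable hT hM hz x) tendsto_id

lemma tendsto_exp_orbit (hM : ∀ t : ℝ≥0, ‖T t‖ ≤ M * Real.exp (ω * t))
    {z : ℂ} (hz : ω < z.re) (x : E) :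
    Tendsto (fun t : ℝ => Complex.exp (-(z * t)) • T t.toNNReal x) atTop (𝓝 0) := by
  rw [tendsto_zero_iff_norm_tendsto_zero]
  have h1 : Tendsto (fun t : ℝ => M * ‖x‖ * Real.exp (-(z.re - ω) * t)) atTop (𝓝 (M * ‖x‖ * 0)) := by
    apply Tendsto.const_mul
    apply Real.tendsto_exp_atBot.comp
    apply Tendsto.const_mul_atTop_of_neg (by linarith) tendsto_id
  rw [mul_zero] at h1
  refine squeeze_zero' (Eventually.of_forall fun t => norm_nonneg _) ?_ h1
  filter_upwards [eventually_ge_atTop 0] with t ht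
  exact laplace_bound hM z x ht

/-- For `Re z > ω` the Laplace transform is the resolvent at `z`. -/
lemma isResolventAt_laplaceOp (hT : IsC0Semigroup T)
    (hM : ∀ t : ℝ≥0, ‖T t‖ ≤ M * Real.exp (ω * t)) {z : ℂ} (hz : ω < z.re) :
    IsResolventAt T z (laplaceOp hT hM hz) := by
  constructor
  · intro y
    set R := laplaceOp hT hM hz with hRdef
    -- `T h (R y) = e^{z h} (R y - ∫₀ʰ ...)`
    have key : ∀ h : ℝ≥0, T h (R y) = Complex.exp (z * h) •
        (R y - ∫ s in (0 : ℝ)..h, Complex.exp (-(z * s)) • T s.toNNReal y) := by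
      intro h
      have h1 : T h (R y) = ∫ s in Ioi (0 : ℝ), T h (Complex.exp (-(z * s)) • T s.toNNReal y) := by
        rw [hRdef, laplaceOp_apply]
        exact ((T h).integral_comp_comm (laplace_integrable hT hM hz y)).symm
      have h2 : ∀ s ∈ Ioi (0 : ℝ), T h (Complex.exp (-(z * s)) • T s.toNNReal y) =
          Complex.exp (z * h) • (fun u : ℝ => Complex.exp (-(z * u)) • T u.toNNReal y) (s + h) := by
        intro s hs
        have hs' : (0 : ℝ) < s := hs
        simp only
        rw [map_smul, ← hT.apply_add, smul_smul, ← Complex.exp_add]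
        have e : (s + (h : ℝ)).toNNReal = h + s.toNNReal := by
          rw [Real.toNNReal_add hs'.le h.coe_nonneg, Real.toNNReal_coe, add_comm]
        rw [e]
        congr 2
        push_cast
        ring
      rw [h1, setIntegral_congr_fun measurableSet_Ioi h2, integral_smul]
      congr 1
      have h3 : ∫ s in Ioi (0 : ℝ), (fun u : ℝ => Complex.exp (-(z * u)) • T u.toNNReal y) (s + h) =
          ∫ u in Ioi (h : ℝ), Complex.exp (-(z * u)) • T u.toNNReal y := by
        have h4 := (measurePreserving_add_right (volume : Measure ℝ) (h : ℝ)).setIntegral_preimage_emb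
          (measurableEmbedding_addRight (h : ℝ))
          (fun u : ℝ => Complex.exp (-(z * u)) • T u.toNNReal y) (Ioi (h : ℝ))
        rw [preimage_add_const_Ioi, sub_self] at h4
        exact h4
      rw [h3, hRdef, laplaceOp_apply]
      rw [eq_sub_iff_add_eq, add_comm]
      rw [intervalIntegral.integral_of_le h.coe_nonneg]
      rw [← setIntegral_union (Set.Ioc_disjoint_Ioi le_rfl) measurableSet_Ioi]
      · rw [Set.Ioc_union_Ioi_eq_Ioi h.coe_nonneg]
      · exact (laplace_integrable hT hM hz y).mono_set Ioc_subset_Ioi_self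
      · exact (laplace_integrable hT hM hz y).mono_set (Ioi_subset_Ioi h.coe_nonneg)
    -- pass to the limit
    have hval : ∀ h : ℝ≥0, h ≠ 0 → ((h : ℝ) : ℂ)⁻¹ • (T h (R y) - R y) =
        (((h : ℝ) : ℂ)⁻¹ * (Complex.exp (z * h) - 1)) • R y - Complex.exp (z * h) •
          (((h : ℝ) : ℂ)⁻¹ • ∫ s in (0 : ℝ)..h, Complex.exp (-(z * s)) • T s.toNNReal y) := by
      intro h _
      rw [key h]
      simp only [smul_sub, sub_smul, mul_smul, one_smul]
      rw [smul_comm (Complex.exp (z * h)) (((h : ℝ) : ℂ)⁻¹) (∫ s in (0 : ℝ)..h, _)]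
      abel
    have hnn : Tendsto (fun h : ℝ≥0 => (h : ℝ)) (𝓝[>] 0) (𝓝[>] 0) := by
      apply tendsto_nhdsWithin_of_tendsto_nhds_of_eventually_within
      · have : Tendsto (fun h : ℝ≥0 => (h : ℝ)) (𝓝 0) (𝓝 ((0 : ℝ≥0) : ℝ)) :=
          NNReal.continuous_coe.tendsto 0
        simpa using this.mono_left nhdsWithin_le_nhds
      · filter_upwards [self_mem_nhdsWithin] with h hh
        exact_mod_cast hh
    have hnn0 : Tendsto (fun h : ℝ≥0 => (h : ℝ)) (𝓝[>] 0) (𝓝 0) :=
      hnn.mono_right nhdsWithin_le_nhds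
    have l1 : Tendsto (fun h : ℝ≥0 => ((h : ℝ) : ℂ)⁻¹ * (Complex.exp (z * h) - 1)) (𝓝[>] 0)
        (𝓝 z) := by
      have h5 : HasDerivAt (fun s : ℝ => Complex.exp (z * s)) z 0 := by
        have h6 : HasDerivAt (fun s : ℝ => z * (s : ℂ)) z 0 := by
          have h7 := ((Complex.ofRealCLM.hasDerivAt (x := (0 : ℝ))).const_mul z)
          have h8 : (z * Complex.ofRealCLM 1) = z := by simp
          rw [h8] at h7
          exact h7
        have h9 := h6.cexp
        simpa using h9
      have h6 := (hasDerivAt_iff_tendsto_slope.mp h5)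
      have h7 : Tendsto (fun h : ℝ≥0 => (h : ℝ)) (𝓝[>] 0) (𝓝[≠] 0) :=
        hnn.mono_right (nhdsWithin_mono _ (fun x hx => ne_of_gt hx))
      refine (h6.comp h7).congr ?_
      intro h
      simp only [Function.comp, slope, vsub_eq_sub, sub_zero, Complex.ofReal_zero, mul_zero,
        Complex.exp_zero]
      rw [← Complex.ofReal_inv]
      rfl
    have l2 : Tendsto (fun h : ℝ≥0 => Complex.exp (z * h)) (𝓝[>] 0) (𝓝 1) := by
      have h5 : Tendsto (fun s : ℝ => Complex.exp (z * s)) (𝓝 0) (𝓝 1) := by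
        have : Continuous (fun s : ℝ => Complex.exp (z * s)) := by fun_prop
        simpa using this.tendsto 0
      exact h5.comp hnn0
    have l3 : Tendsto (fun h : ℝ≥0 => ((h : ℝ) : ℂ)⁻¹ •
        ∫ s in (0 : ℝ)..h, Complex.exp (-(z * s)) • T s.toNNReal y) (𝓝[>] 0) (𝓝 y) := by
      have hc := continuous_cexp_orbit hT z y
      have h5 : HasDerivAt (fun u => ∫ s in (0 : ℝ)..u, Complex.exp (-(z * s)) • T s.toNNReal y)
          (Complex.exp (-(z * (0 : ℝ))) • T (0 : ℝ).toNNReal y) 0 :=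
        intervalIntegral.integral_hasDerivAt_right (hc.intervalIntegrable _ _)
          (hc.stronglyMeasurableAtFilter _ _) (hc.continuousAt)
      have h8 : (Complex.exp (-(z * (0 : ℝ))) • T (0 : ℝ).toNNReal y) = y := by
        simp [hT.map_zero]
      rw [h8] at h5
      have h6 := (hasDerivAt_iff_tendsto_slope.mp h5)
      have h7 : Tendsto (fun h : ℝ≥0 => (h : ℝ)) (𝓝[>] 0) (𝓝[≠] 0) :=
        hnn.mono_right (nhdsWithin_mono _ (fun x hx => ne_of_gt hx))
      refine (h6.comp h7).congr ?_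
      intro h
      simp only [Function.comp, slope, vsub_eq_sub, sub_zero, intervalIntegral.integral_same]
      rw [← Complex.ofReal_inv]
      rfl
    have l4 := (l1.smul_const (R y)).sub (l2.smul l3)
    rw [one_smul] at l4
    refine l4.congr' ?_
    filter_upwards [self_mem_nhdsWithin] with h hh
    exact (hval h (ne_of_gt hh)).symm
  · intro x x' h
    have h1 := laplaceOp_tendsto hT hM hz (z • x - x')
    have h2 : Tendsto (fun t : ℝ => x - Complex.exp (-(z * t)) • T t.toNNReal x) atTop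
        (𝓝 (x - 0)) := tendsto_const_nhds.sub (tendsto_exp_orbit hM hz x)
    rw [sub_zero] at h2
    refine tendsto_nhds_unique (h1.congr' ?_) h2
    filter_upwards [eventually_ge_atTop 0] with t ht
    exact (GenRel.laplace hT z h ht).symm

end Laplace

/-- One always has `s(A) ≤ ω₀(A)`. -/
lemma spectralBound_le_growthBound [CompleteSpace E] (hT : IsC0Semigroup T) :
    spectralBound T ≤ growthBound T := by
  refine le_sInf ?_
  rintro w ⟨ω, rfl, M, hM⟩
  refine iSup₂_le ?_
  intro z hz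
  by_contra hlt
  rw [not_le, EReal.coe_lt_coe_iff] at hlt
  exact hz ⟨_, isResolventAt_laplaceOp hT hM hlt⟩

/-- The rescaled semigroup `e^{-c t} T(t)`. -/
noncomputable def rescale (c : ℝ) (T : ℝ≥0 → E →L[ℂ] E) : ℝ≥0 → E →L[ℂ] E :=
  fun t => (Real.exp (-(c * t)) : ℂ) • T t

lemma rescale_apply (c : ℝ) (t : ℝ≥0) (x : E) :
    rescale c T t x = (Real.exp (-(c * t)) : ℂ) • T t x := rfl

lemma IsC0Semigroup.rescale (hT : IsC0Semigroup T) (c : ℝ) :
    IsC0Semigroup (Pool.Agent.H21.rescale c T) := by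
  refine ⟨?_, ?_, ?_⟩
  · simp [Pool.Agent.H21.rescale, hT.map_zero]
  · intro s t
    simp only [Pool.Agent.H21.rescale]
    rw [hT.map_add, smul_mul_smul_comm]
    congr 1
    rw [← Complex.ofReal_mul, ← Real.exp_add]
    congr 2
    push_cast; ring
  · intro x
    have h1 : Continuous fun t : ℝ≥0 => ((Real.exp (-(c * t)) : ℝ) : ℂ) := by fun_prop
    exact h1.smul (hT.cont x)

lemma GenRel.rescale {x y : E} (h : GenRel T x y) (c : ℝ) :
    GenRel (Pool.Agent.H21.rescale c T) x (y - (c : ℂ) • x) := by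
  have hnn : Tendsto (fun h : ℝ≥0 => (h : ℝ)) (𝓝[>] 0) (𝓝[>] 0) := by
    apply tendsto_nhdsWithin_of_tendsto_nhds_of_eventually_within
    · have : Tendsto (fun h : ℝ≥0 => (h : ℝ)) (𝓝 0) (𝓝 ((0 : ℝ≥0) : ℝ)) :=
        NNReal.continuous_coe.tendsto 0
      simpa using this.mono_left nhdsWithin_le_nhds
    · filter_upwards [self_mem_nhdsWithin] with h hh
      exact_mod_cast hh
  have hnn0 : Tendsto (fun h : ℝ≥0 => (h : ℝ)) (𝓝[>] 0) (𝓝 0) :=
    hnn.mono_right nhdsWithin_le_nhds
  have l1 : Tendsto (fun t : ℝ≥0 => ((Real.exp (-(c * t)) : ℝ) : ℂ)) (𝓝[>] 0) (𝓝 1) := by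
    have h5 : Tendsto (fun s : ℝ => ((Real.exp (-(c * s)) : ℝ) : ℂ)) (𝓝 0) (𝓝 1) := by
      have : Continuous (fun s : ℝ => ((Real.exp (-(c * s)) : ℝ) : ℂ)) := by fun_prop
      simpa using this.tendsto 0
    exact h5.comp hnn0
  have l2 : Tendsto (fun t : ℝ≥0 => (((t : ℝ)⁻¹ * (Real.exp (-(c * t)) - 1) : ℝ) : ℂ)) (𝓝[>] 0)
      (𝓝 (((-c : ℝ)) : ℂ)) := by
    refine (Complex.continuous_ofReal.tendsto _).comp ?_
    have h5 : HasDerivAt (fun s : ℝ => Real.exp (-(c * s))) (-c) 0 := by
      have h6 : HasDerivAt (fun s : ℝ => -(c * s)) (-c) 0 := by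
        have h7 := ((hasDerivAt_id (0 : ℝ)).const_mul c).neg
        rw [mul_one] at h7
        exact h7
      simpa using h6.exp
    have h6 := (hasDerivAt_iff_tendsto_slope.mp h5)
    have h7 : Tendsto (fun h : ℝ≥0 => (h : ℝ)) (𝓝[>] 0) (𝓝[≠] 0) :=
      hnn.mono_right (nhdsWithin_mono _ (fun x hx => ne_of_gt hx))
    refine (h6.comp h7).congr ?_
    intro t
    simp [Function.comp, slope]
  have l3 := (l1.smul h).add (l2.smul_const x)
  have e : (1 : ℂ) • y + ((-c : ℝ) : ℂ) • x = y - (c : ℂ) • x := by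
    rw [one_smul]; push_cast; rw [neg_smul]; abel
  rw [e] at l3
  refine l3.congr ?_
  intro t
  rw [rescale_apply]
  push_cast
  simp only [smul_sub, mul_sub, sub_smul, mul_smul, mul_one]
  rw [smul_comm ((Complex.exp (-(↑c * ↑↑t)))) (((t : ℝ) : ℂ)⁻¹) (T t x),
    smul_comm ((Complex.exp (-(↑c * ↑↑t)))) (((t : ℝ) : ℂ)⁻¹) x]
  abel

lemma rescale_rescale (c d : ℝ) : rescale c (rescale d T) = rescale (c + d) T := by
  ext t x
  rw [rescale_apply, rescale_apply, rescale_apply, smul_smul, ← Complex.ofReal_mul,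
    ← Real.exp_add]
  congr 3
  ring

lemma rescale_zero : rescale 0 T = T := by
  ext t x
  simp [rescale_apply]

lemma IsResolventAt.rescale {z : ℂ} {c : ℝ} {R : E →L[ℂ] E} (hR : IsResolventAt T (z + c) R) :
    IsResolventAt (Pool.Agent.H21.rescale c T) z R := by
  constructor
  · intro y
    have h1 := (hR.1 y).rescale c
    refine h1.of_eq ?_
    rw [add_smul]; abel
  · intro x y h
    have h1 := h.rescale (-c)
    rw [rescale_rescale, neg_add_cancel, rescale_zero] at h1
    have h2 := hR.2 _ _ h1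
    have h3 : (z + (c : ℂ)) • x - (y - ((-c : ℝ) : ℂ) • x) = z • x - y := by
      push_cast
      rw [add_smul, neg_smul]
      abel
    rw [h3] at h2
    exact h2

end Pool.Agent.H21
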