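import Pool.Agent.H21.Semi3

/-!
# Strongly continuous semigroups, part 4: a discrete convolution estimate implies boundedness
-/

namespace Pool.Agent.H21

open Filter Topology MeasureTheory Set
open scoped NNReal ENNReal

variable {E : Type*} [NormedAddCommGroup E] [NormedSpace ℂ E]
variable {T : ℝ≥0 → E →L[ℂ] E}

/-- The operator `g ↦ ∫ₐᵇ T(s) g ds`. -/
noncomputable def kap (hT : IsC0Semigroup T) (a b : ℝ) : E →ₗ[ℂ] E where
  toFun g := ∫ s in a..b, T s.toNNReal g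
  map_add' x y := by
    rw [← intervalIntegral.integral_add ((continuous_orbit hT x).intervalIntegrable _ _)
      ((continuous_orbit hT y).intervalIntegrable _ _)]
    simp
  map_smul' c x := by
    rw [RingHom.id_apply, ← intervalIntegral.integral_smul]
    simp

lemma kap_apply (hT : IsC0Semigroup T) (a b : ℝ) (g : E) :
    kap hT a b g = ∫ s in a..b, T s.toNNReal g := rfl

lemma kap_add (hT : IsC0Semigroup T) (a b c : ℝ) (g : E) :
    kap hT a b g + kap hT b c g = kap hT a c g := by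
  simp only [kap_apply]
  exact intervalIntegral.integral_add_adjacent_intervals
    ((continuous_orbit hT g).intervalIntegrable _ _) ((continuous_orbit hT g).intervalIntegrable _ _)

lemma kap_shift (hT : IsC0Semigroup T) {a b s : ℝ} (ha : 0 ≤ a) (hab : a ≤ b) (hs : 0 ≤ s) (g : E) :
    kap hT a b (T s.toNNReal g) = kap hT (a + s) (b + s) g := by
  simp only [kap_apply]
  rw [← intervalIntegral.integral_comp_add_right (fun u => T u.toNNReal g) s]
  apply intervalIntegral.integral_congr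
  intro u hu
  rw [uIcc_of_le hab] at hu
  simp only
  rw [← hT.apply_add, Real.toNNReal_add (ha.trans hu.1) hs]

lemma map_kap [CompleteSpace E] (hT : IsC0Semigroup T) {a b s : ℝ} (ha : 0 ≤ a) (hab : a ≤ b)
    (hs : 0 ≤ s) (g : E) :
    T s.toNNReal (kap hT a b g) = kap hT (a + s) (b + s) g := by
  rw [← kap_shift hT ha hab hs, kap_apply, kap_apply, ← ContinuousLinearMap.intervalIntegral_comp_comm
    _ ((continuous_orbit hT _).intervalIntegrable _ _)]
  apply intervalIntegral.integral_congr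
  intro u _
  exact hT.comm _ _ _

/-- `∫ₐᵇ T(s) g ds = T(a) R g - T(b) R g` for the resolvent `R` at `0`. -/
lemma kap_eq_resolvent [CompleteSpace E] (hT : IsC0Semigroup T) {R : E →L[ℂ] E}
    (hR : IsResolventAt T 0 R) {a b : ℝ} (ha : 0 ≤ a) (hab : a ≤ b) (g : E) :
    kap hT a b g = T a.toNNReal (R g) - T b.toNNReal (R g) := by
  have h1 := hR.laplace hT g ha
  have h2 := hR.laplace hT g (ha.trans hab)
  have h3 := kap_add hT 0 a b g
  simp only [kap_apply] at h3 ⊢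
  simp only [zero_mul, neg_zero, Complex.exp_zero, one_smul] at h1 h2
  rw [← h1, ← h2] at h3
  have h4 : (∫ s in a..b, T s.toNNReal g) = (R g - T b.toNNReal (R g)) - (R g - T a.toNNReal (R g)) := by
    rw [← h3]; abel
  rw [h4]; abel

/-- Means over short intervals converge to the identity. -/
lemma tendsto_mean [CompleteSpace E] (hT : IsC0Semigroup T) (x : E) :
    Tendsto (fun n : ℕ => ((n : ℝ) : ℂ) • kap hT 0 ((n : ℝ)⁻¹) x) atTop (𝓝 x) := by
  have hc := continuous_orbit hT x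
  have h5 : HasDerivAt (fun u => ∫ s in (0 : ℝ)..u, T s.toNNReal x)
      (T (0 : ℝ).toNNReal x) 0 :=
    intervalIntegral.integral_hasDerivAt_right (hc.intervalIntegrable _ _)
      (hc.stronglyMeasurableAtFilter _ _) (hc.continuousAt)
  have h8 : (T (0 : ℝ).toNNReal x) = x := by
    simp [hT.map_zero]
  rw [h8] at h5
  have h6 := (hasDerivAt_iff_tendsto_slope.mp h5)
  have h7 : Tendsto (fun n : ℕ => (n : ℝ)⁻¹) atTop (𝓝[≠] 0) := by
    apply tendsto_nhdsWithin_of_tendsto_nhds_of_eventually_within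
    · exact tendsto_inv_atTop_nhds_zero_nat
    · filter_upwards [eventually_gt_atTop 0] with n hn
      have : (0 : ℝ) < n := by exact_mod_cast hn
      simp only [mem_compl_iff, mem_singleton_iff]
      positivity
  refine (h6.comp h7).congr ?_
  intro n
  simp only [Function.comp, slope, vsub_eq_sub, sub_zero, intervalIntegral.integral_same, inv_inv,
    kap_apply]
  exact (Complex.coe_smul _ _).symm

/-- The `j`-th kernel operator with step `1/ν`, starting from time `n`. -/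
noncomputable def kapStep (hT : IsC0Semigroup T) (n ν j : ℕ) : E →ₗ[ℂ] E :=
  kap hT (n + ((j : ℝ) - 1) / ν) (n + (j : ℝ) / ν)

/-- The discrete convolution estimate. -/
def ConvEstimate (hT : IsC0Semigroup T) (P : Set E) (p : ℝ) (n : ℕ) (C : ℝ) : Prop :=
  ∀ ν : ℕ, 0 < ν → ∀ m : ℕ, ∀ G : ℕ → E, (∀ i, G i ∈ P) →
    (ν : ℝ)⁻¹ * ∑ k ∈ Finset.Ico ν (ν + m), ‖∑ i ∈ Finset.range ν, kapStep hT n ν (k - i) (G i)‖ ^ p ≤
      C * ((ν : ℝ)⁻¹ * ∑ i ∈ Finset.range ν, ‖G i‖ ^ p)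

/-- The convolution estimate for positive sequences implies that the semigroup is bounded. -/
theorem bounded_of_convEstimate [CompleteSpace E] (hT : IsC0Semigroup T) {P : Set E} {p : ℝ}
    (hp : 1 ≤ p) {n : ℕ} {C : ℝ} (hC : 0 ≤ C) (hconv : ConvEstimate hT P p n C)
    (hdec : ∀ x : E, ∃ x₁ ∈ P, ∃ x₂ ∈ P, ∃ x₃ ∈ P, ∃ x₄ ∈ P,
      x = x₁ - x₂ + Complex.I • (x₃ - x₄) ∧ ‖x₁‖ ≤ ‖x‖ ∧ ‖x₂‖ ≤ ‖x‖ ∧ ‖x₃‖ ≤ ‖x‖ ∧ ‖x₄‖ ≤ ‖x‖) :
    ∃ M : ℝ, ∀ t, ‖T t‖ ≤ M := by
  obtain ⟨M₂, hM21, hM2⟩ := hT.exists_local_bound 2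
  have hp0 : 0 < p := by linarith
  -- the estimate for arbitrary sequences
  have hconv' : ∀ ν : ℕ, 0 < ν → ∀ m : ℕ, ∀ G : ℕ → E,
      (ν : ℝ)⁻¹ * ∑ k ∈ Finset.Ico ν (ν + m),
        ‖∑ i ∈ Finset.range ν, kapStep hT n ν (k - i) (G i)‖ ^ p ≤
      4 ^ p * 4 * C * ((ν : ℝ)⁻¹ * ∑ i ∈ Finset.range ν, ‖G i‖ ^ p) := by
    intro ν hν m G
    choose g₁ h₁ g₂ h₂ g₃ h₃ g₄ h₄ hG n₁ n₂ n₃ n₄ using fun i => hdec (G i)
    have hν' : (0 : ℝ) ≤ (ν : ℝ)⁻¹ := by positivity
    have hb : ∀ g : ℕ → E, (∀ i, g i ∈ P) → (∀ i, ‖g i‖ ≤ ‖G i‖) →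
        (ν : ℝ)⁻¹ * ∑ k ∈ Finset.Ico ν (ν + m),
          ‖∑ i ∈ Finset.range ν, kapStep hT n ν (k - i) (g i)‖ ^ p ≤
        C * ((ν : ℝ)⁻¹ * ∑ i ∈ Finset.range ν, ‖G i‖ ^ p) := by
      intro g hg hgn
      refine (hconv ν hν m g hg).trans ?_
      gcongr with i hi
      exact hgn i
    have e₁ := hb g₁ h₁ n₁
    have e₂ := hb g₂ h₂ n₂
    have e₃ := hb g₃ h₃ n₃
    have e₄ := hb g₄ h₄ n₄
    have hk : ∀ k, ‖∑ i ∈ Finset.range ν, kapStep hT n ν (k - i) (G i)‖ ^ p ≤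
        4 ^ p * (‖∑ i ∈ Finset.range ν, kapStep hT n ν (k - i) (g₁ i)‖ ^ p +
          ‖∑ i ∈ Finset.range ν, kapStep hT n ν (k - i) (g₂ i)‖ ^ p +
          ‖∑ i ∈ Finset.range ν, kapStep hT n ν (k - i) (g₃ i)‖ ^ p +
          ‖∑ i ∈ Finset.range ν, kapStep hT n ν (k - i) (g₄ i)‖ ^ p) := by
      intro k
      set a := ∑ i ∈ Finset.range ν, kapStep hT n ν (k - i) (g₁ i) with ha
      set b := ∑ i ∈ Finset.range ν, kapStep hT n ν (k - i) (g₂ i) with hb
      set c := ∑ i ∈ Finset.range ν, kapStep hT n ν (k - i) (g₃ i) with hc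
      set d := ∑ i ∈ Finset.range ν, kapStep hT n ν (k - i) (g₄ i) with hd
      have h0 : ∑ i ∈ Finset.range ν, kapStep hT n ν (k - i) (G i) = a - b + Complex.I • (c - d) := by
        rw [ha, hb, hc, hd, ← Finset.sum_sub_distrib, ← Finset.sum_sub_distrib, Finset.smul_sum,
          ← Finset.sum_add_distrib]
        apply Finset.sum_congr rfl
        intro i _
        rw [← map_sub, ← map_sub, ← map_smul, ← map_add, ← hG i]
      rw [h0]
      have h1 : ‖a - b + Complex.I • (c - d)‖ ≤ ‖a‖ + ‖b‖ + ‖c‖ + ‖d‖ := by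
        calc _ ≤ ‖a - b‖ + ‖Complex.I • (c - d)‖ := norm_add_le _ _
          _ ≤ (‖a‖ + ‖b‖) + (‖c‖ + ‖d‖) := by
              rw [norm_smul, Complex.norm_I, one_mul]
              exact add_le_add (norm_sub_le _ _) (norm_sub_le _ _)
          _ = _ := by ring
      set mx := max (max ‖a‖ ‖b‖) (max ‖c‖ ‖d‖) with hmx
      have ham : ‖a‖ ≤ mx := (le_max_left _ _).trans (le_max_left _ _)
      have hbm : ‖b‖ ≤ mx := (le_max_right _ _).trans (le_max_left _ _)
      have hcm : ‖c‖ ≤ mx := (le_max_left _ _).trans (le_max_right _ _)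
      have hdm : ‖d‖ ≤ mx := (le_max_right _ _).trans (le_max_right _ _)
      have hmx0 : 0 ≤ mx := (norm_nonneg a).trans ham
      have h2 : ‖a - b + Complex.I • (c - d)‖ ≤ 4 * mx := by linarith
      have h3 : mx ^ p ≤ ‖a‖ ^ p + ‖b‖ ^ p + ‖c‖ ^ p + ‖d‖ ^ p := by
        have pa : 0 ≤ ‖a‖ ^ p := by positivity
        have pb : 0 ≤ ‖b‖ ^ p := by positivity
        have pc : 0 ≤ ‖c‖ ^ p := by positivity
        have pd : 0 ≤ ‖d‖ ^ p := by positivity
        rcases max_choice (max ‖a‖ ‖b‖) (max ‖c‖ ‖d‖) with h | h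
        · rcases max_choice ‖a‖ ‖b‖ with h' | h'
          · rw [hmx, h, h']; linarith
          · rw [hmx, h, h']; linarith
        · rcases max_choice ‖c‖ ‖d‖ with h' | h'
          · rw [hmx, h, h']; linarith
          · rw [hmx, h, h']; linarith
      calc ‖a - b + Complex.I • (c - d)‖ ^ p ≤ (4 * mx) ^ p := by gcongr
        _ = 4 ^ p * mx ^ p := Real.mul_rpow (by norm_num) hmx0
        _ ≤ _ := by gcongr
    calc (ν : ℝ)⁻¹ * ∑ k ∈ Finset.Ico ν (ν + m),
          ‖∑ i ∈ Finset.range ν, kapStep hT n ν (k - i) (G i)‖ ^ p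
        ≤ (ν : ℝ)⁻¹ * ∑ k ∈ Finset.Ico ν (ν + m), (4 ^ p *
          (‖∑ i ∈ Finset.range ν, kapStep hT n ν (k - i) (g₁ i)‖ ^ p +
          ‖∑ i ∈ Finset.range ν, kapStep hT n ν (k - i) (g₂ i)‖ ^ p +
          ‖∑ i ∈ Finset.range ν, kapStep hT n ν (k - i) (g₃ i)‖ ^ p +
          ‖∑ i ∈ Finset.range ν, kapStep hT n ν (k - i) (g₄ i)‖ ^ p)) := by
            gcongr with k hk'
            exact hk k
      _ = 4 ^ p * (((ν : ℝ)⁻¹ * ∑ k ∈ Finset.Ico ν (ν + m),
          ‖∑ i ∈ Finset.range ν, kapStep hT n ν (k - i) (g₁ i)‖ ^ p) +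
          ((ν : ℝ)⁻¹ * ∑ k ∈ Finset.Ico ν (ν + m),
          ‖∑ i ∈ Finset.range ν, kapStep hT n ν (k - i) (g₂ i)‖ ^ p) +
          ((ν : ℝ)⁻¹ * ∑ k ∈ Finset.Ico ν (ν + m),
          ‖∑ i ∈ Finset.range ν, kapStep hT n ν (k - i) (g₃ i)‖ ^ p) +
          ((ν : ℝ)⁻¹ * ∑ k ∈ Finset.Ico ν (ν + m),
          ‖∑ i ∈ Finset.range ν, kapStep hT n ν (k - i) (g₄ i)‖ ^ p)) := by
            rw [← Finset.mul_sum]
            simp only [Finset.sum_add_distrib]
            ring
      _ ≤ 4 ^ p * (C * ((ν : ℝ)⁻¹ * ∑ i ∈ Finset.range ν, ‖G i‖ ^ p) +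
          C * ((ν : ℝ)⁻¹ * ∑ i ∈ Finset.range ν, ‖G i‖ ^ p) +
          C * ((ν : ℝ)⁻¹ * ∑ i ∈ Finset.range ν, ‖G i‖ ^ p) +
          C * ((ν : ℝ)⁻¹ * ∑ i ∈ Finset.range ν, ‖G i‖ ^ p)) := by gcongr
      _ = _ := by ring
  -- the main step
  set C' : ℝ := 4 ^ p * 4 * C with hC'
  have hC'0 : 0 ≤ C' := by positivity
  set D : ℝ := (M₂ ^ p * (C' * M₂ ^ p)) ^ (1 / p) with hD
  have hD0 : 0 ≤ D := by positivity
  have hM20 : 0 ≤ M₂ := by linarith
  have hmain : ∀ L : ℕ, n + 2 ≤ L → ∀ x : E, ‖T L x‖ ≤ D * ‖x‖ := by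
    intro L hL x
    have hν : ∀ ν : ℕ, 0 < ν → ‖T L (((ν : ℝ) : ℂ) • kap hT 0 ((ν : ℝ)⁻¹) x)‖ ≤ D * ‖x‖ := by
      intro ν hν
      have hνr : (0 : ℝ) < ν := by exact_mod_cast hν
      set G : ℕ → E := fun i => T ((i : ℝ) / ν).toNNReal x with hG
      set y : E := ((ν : ℝ) : ℂ) • kap hT 0 ((ν : ℝ)⁻¹) x with hy
      have h1 := hconv' ν hν (ν * (L - n)) G
      -- compute the convolution
      have h2 : ∀ k ∈ Finset.Ico ν (ν + ν * (L - n)),
          ∑ i ∈ Finset.range ν, kapStep hT n ν (k - i) (G i) =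
            ((ν : ℝ) : ℂ) • kap hT (n + ((k : ℝ) - 1) / ν) (n + (k : ℝ) / ν) x := by
        intro k hk
        rw [Finset.mem_Ico] at hk
        have : ∀ i ∈ Finset.range ν, kapStep hT n ν (k - i) (G i) =
            kap hT (n + ((k : ℝ) - 1) / ν) (n + (k : ℝ) / ν) x := by
          intro i hi
          rw [Finset.mem_range] at hi
          have hik : i + 1 ≤ k := by omega
          have hik' : (i : ℝ) + 1 ≤ k := by exact_mod_cast hik
          have hcast : ((k - i : ℕ) : ℝ) = (k : ℝ) - i := by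
            rw [Nat.cast_sub (by omega)]
          rw [kapStep, hG]
          simp only
          rw [kap_shift hT _ _ (by positivity), hcast]
          · congr 2 <;> ring
          · rw [hcast]
            have : 0 ≤ ((k : ℝ) - i - 1) / ν := div_nonneg (by linarith) hνr.le
            positivity
          · rw [hcast]
            have : ((k : ℝ) - i - 1) / ν ≤ ((k : ℝ) - i) / ν :=
              div_le_div_of_nonneg_right (by linarith) hνr.le
            linarith
        rw [Finset.sum_congr rfl this, Finset.sum_const, Finset.card_range]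
        rw [Complex.ofReal_natCast, ← Nat.cast_smul_eq_nsmul ℂ]
      -- the relevant indices
      have h3 : ∀ k ∈ Finset.Ioc (ν * (L - 1 - n)) (ν * (L - n)),
          ‖T L y‖ ^ p ≤ M₂ ^ p *
            ‖∑ i ∈ Finset.range ν, kapStep hT n ν (k - i) (G i)‖ ^ p := by
        intro k hk
        rw [Finset.mem_Ioc] at hk
        have hL1 : 1 ≤ L - 1 - n := by omega
        have hkν : ν ≤ k := by nlinarith
        have hkI : k ∈ Finset.Ico ν (ν + ν * (L - n)) := by
          rw [Finset.mem_Ico]; exact ⟨hkν, by omega⟩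
        rw [h2 k hkI, ← Real.mul_rpow hM20 (norm_nonneg _)]
        have hkL : (k : ℝ) ≤ ν * ((L : ℝ) - n) := by
          have h4 : (k : ℝ) ≤ ((ν * (L - n) : ℕ) : ℝ) := by exact_mod_cast hk.2
          rw [Nat.cast_mul, Nat.cast_sub (by omega)] at h4
          exact h4
        have hkL' : (ν : ℝ) * ((L : ℝ) - 1 - n) < k := by
          have h4 : ((ν * (L - 1 - n) : ℕ) : ℝ) < (k : ℝ) := by exact_mod_cast hk.1
          rw [Nat.cast_mul, Nat.cast_sub (by omega), Nat.cast_sub (by omega)] at h4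
          simpa using h4
        have hk1 : (1 : ℝ) ≤ k := by exact_mod_cast (show 1 ≤ k by omega)
        set a : ℝ := n + ((k : ℝ) - 1) / ν with ha
        have ha0 : 0 ≤ a := by
          have : 0 ≤ ((k : ℝ) - 1) / ν := div_nonneg (by linarith) hνr.le
          positivity
        have haL : a ≤ L := by
          have : ((k : ℝ) - 1) / ν ≤ (L : ℝ) - n := by
            rw [div_le_iff₀ hνr]; nlinarith
          linarith
        have haL' : (L : ℝ) - a ≤ 2 := by
          have : (L : ℝ) - 1 - n - 1 ≤ ((k : ℝ) - 1) / ν := by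
            rw [le_div_iff₀ hνr]
            have : (1 : ℝ) ≤ ν := by exact_mod_cast hν
            nlinarith
          linarith
        have h5 : T a.toNNReal y = ((ν : ℝ) : ℂ) • kap hT (n + ((k : ℝ) - 1) / ν) (n + (k : ℝ) / ν) x := by
          rw [hy, map_smul, map_kap hT le_rfl (by positivity) ha0]
          congr 3
          · rw [ha]; ring
          · rw [ha]; field_simp; ring
        have h6 : T L y = T ((L : ℝ) - a).toNNReal (T a.toNNReal y) := by
          rw [← hT.apply_add, ← Real.toNNReal_add (by linarith) ha0]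
          congr 2
          rw [sub_add_cancel, Real.toNNReal_natCast]
        gcongr
        rw [h6, ← h5]
        refine ((T _).le_opNorm _).trans ?_
        gcongr
        apply hM2
        rw [Real.toNNReal_le_iff_le_coe]
        simpa using haL'
      have h4 : ‖T L y‖ ^ p ≤ M₂ ^ p * ((ν : ℝ)⁻¹ * ∑ k ∈ Finset.Ico ν (ν + ν * (L - n)),
          ‖∑ i ∈ Finset.range ν, kapStep hT n ν (k - i) (G i)‖ ^ p) := by
        have hcard : (Finset.Ioc (ν * (L - 1 - n)) (ν * (L - n))).card = ν := by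
          rw [Nat.card_Ioc, ← Nat.mul_sub]
          have : L - n - (L - 1 - n) = 1 := by omega
          rw [this, mul_one]
        have h5 : (ν : ℝ) * ‖T L y‖ ^ p ≤ ∑ k ∈ Finset.Ioc (ν * (L - 1 - n)) (ν * (L - n)),
            M₂ ^ p * ‖∑ i ∈ Finset.range ν, kapStep hT n ν (k - i) (G i)‖ ^ p := by
          have h6 := Finset.sum_le_sum h3
          rw [Finset.sum_const, hcard, nsmul_eq_mul] at h6
          exact h6
        have h7 : ∑ k ∈ Finset.Ioc (ν * (L - 1 - n)) (ν * (L - n)),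
            M₂ ^ p * ‖∑ i ∈ Finset.range ν, kapStep hT n ν (k - i) (G i)‖ ^ p ≤
            ∑ k ∈ Finset.Ico ν (ν + ν * (L - n)),
            M₂ ^ p * ‖∑ i ∈ Finset.range ν, kapStep hT n ν (k - i) (G i)‖ ^ p := by
          apply Finset.sum_le_sum_of_subset_of_nonneg
          · intro k hk
            rw [Finset.mem_Ioc] at hk
            have hL1 : 1 ≤ L - 1 - n := by omega
            have hkν : ν ≤ k := by nlinarith
            rw [Finset.mem_Ico]; exact ⟨hkν, by omega⟩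
          · intro k _ _; positivity
        have h8 := h5.trans h7
        rw [← Finset.mul_sum] at h8
        have h9 : ‖T L y‖ ^ p = (ν : ℝ)⁻¹ * ((ν : ℝ) * ‖T L y‖ ^ p) := by field_simp
        rw [h9]
        calc (ν : ℝ)⁻¹ * ((ν : ℝ) * ‖T L y‖ ^ p) ≤ (ν : ℝ)⁻¹ * (M₂ ^ p *
              ∑ k ∈ Finset.Ico ν (ν + ν * (L - n)),
              ‖∑ i ∈ Finset.range ν, kapStep hT n ν (k - i) (G i)‖ ^ p) := by gcongr
          _ = _ := by ring
      have h5 : (ν : ℝ)⁻¹ * ∑ i ∈ Finset.range ν, ‖G i‖ ^ p ≤ M₂ ^ p * ‖x‖ ^ p := by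
        have h6 : ∀ i ∈ Finset.range ν, ‖G i‖ ^ p ≤ M₂ ^ p * ‖x‖ ^ p := by
          intro i hi
          rw [← Real.mul_rpow hM20 (norm_nonneg _)]
          gcongr
          refine ((T _).le_opNorm _).trans ?_
          gcongr
          apply hM2
          rw [Real.toNNReal_le_iff_le_coe]
          rw [Finset.mem_range] at hi
          have : (i : ℝ) / ν ≤ 1 := by
            rw [div_le_one hνr]; exact_mod_cast hi.le
          have h2 : ((2 : ℝ≥0) : ℝ) = 2 := rfl
          rw [h2]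
          linarith
        have h7 := Finset.sum_le_sum h6
        rw [Finset.sum_const, Finset.card_range, nsmul_eq_mul] at h7
        calc (ν : ℝ)⁻¹ * ∑ i ∈ Finset.range ν, ‖G i‖ ^ p
            ≤ (ν : ℝ)⁻¹ * (ν * (M₂ ^ p * ‖x‖ ^ p)) := by gcongr
          _ = M₂ ^ p * ‖x‖ ^ p := by field_simp
      have h6 : ‖T L y‖ ^ p ≤ (M₂ ^ p * (C' * M₂ ^ p)) * ‖x‖ ^ p := by
        calc ‖T L y‖ ^ p ≤ _ := h4
          _ ≤ M₂ ^ p * (C' * ((ν : ℝ)⁻¹ * ∑ i ∈ Finset.range ν, ‖G i‖ ^ p)) := by gcongr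
          _ ≤ M₂ ^ p * (C' * (M₂ ^ p * ‖x‖ ^ p)) := by gcongr
          _ = _ := by ring
      have h7 : ‖T L y‖ = (‖T L y‖ ^ p) ^ (1 / p) := by
        rw [← Real.rpow_mul (norm_nonneg _), mul_one_div_cancel hp0.ne', Real.rpow_one]
      rw [h7]
      calc (‖T L y‖ ^ p) ^ (1 / p) ≤ ((M₂ ^ p * (C' * M₂ ^ p)) * ‖x‖ ^ p) ^ (1 / p) := by gcongr
        _ = D * ‖x‖ := by
            rw [Real.mul_rpow (by positivity) (by positivity), ← Real.rpow_mul (norm_nonneg _),
              mul_one_div_cancel hp0.ne', Real.rpow_one]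
    have h1 : Tendsto (fun ν : ℕ => ‖T L (((ν : ℝ) : ℂ) • kap hT 0 ((ν : ℝ)⁻¹) x)‖) atTop
        (𝓝 ‖T L x‖) :=
      ((continuous_norm.comp (T (L : ℝ≥0)).continuous).tendsto x).comp (tendsto_mean hT x)
    refine le_of_tendsto h1 ?_
    filter_upwards [eventually_gt_atTop 0] with ν h
    exact hν ν h
  obtain ⟨M₁, hM11, hM1⟩ := hT.exists_local_bound (n + 2)
  refine ⟨M₁ * (1 + D), ?_⟩
  intro t
  rcases le_total t (n + 2) with ht | ht
  · calc ‖T t‖ ≤ M₁ := hM1 t ht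
      _ ≤ M₁ * (1 + D) := by nlinarith
  · have h1 : t = (t - ⌊t⌋₊) + (⌊t⌋₊ : ℝ≥0) := by
      rw [tsub_add_cancel_of_le]; exact Nat.floor_le zero_le
    have h2 : t - ⌊t⌋₊ ≤ n + 2 := by
      have : t - ⌊t⌋₊ ≤ 1 := by
        rw [tsub_le_iff_right]; rw [add_comm]; exact (Nat.lt_floor_add_one t).le
      refine this.trans ?_
      have : (1 : ℝ≥0) ≤ 2 := by norm_num
      exact this.trans (le_add_of_nonneg_left zero_le)
    have h3 : n + 2 ≤ ⌊t⌋₊ := by
      apply Nat.le_floor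
      exact_mod_cast ht
    rw [h1, hT.map_add]
    calc ‖T (t - ⌊t⌋₊) * T (⌊t⌋₊ : ℝ≥0)‖ ≤ ‖T (t - ⌊t⌋₊)‖ * ‖T (⌊t⌋₊ : ℝ≥0)‖ := norm_mul_le _ _
      _ ≤ M₁ * D := by
          gcongr
          · exact hM1 _ h2
          · exact ContinuousLinearMap.opNorm_le_bound _ hD0 (hmain _ h3)
      _ ≤ M₁ * (1 + D) := by nlinarith

end Pool.Agent.H21
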