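import Pool.Agent.H21.Semi4

/-!
# Individually eventually positive semigroups: order bounds for discrete convolutions
-/

namespace Pool.Agent.H21

open Filter Topology MeasureTheory Set
open scoped NNReal ENNReal

variable {E : Type*} [NormedAddCommGroup E] [NormedSpace ℂ E]
variable {T : ℝ≥0 → E →L[ℂ] E}

/-- Baire category: for an individually eventually positive semigroup there are a time `n` and a
positive vector `f₀` which dominates the negative parts. -/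
theorem exists_baire [CompleteSpace E] {P : Set E} (hP : IsClosedCone P)
    (hpos : ∀ f ∈ P, ∃ t₀ : ℝ≥0, ∀ t, t₀ ≤ t → T t f ∈ P) :
    ∃ n : ℕ, ∃ c : ℝ, 0 ≤ c ∧ ∃ f₀ ∈ P, (∀ t : ℝ≥0, (n : ℝ≥0) ≤ t → T t f₀ ∈ P) ∧
      ∀ g ∈ P, ∀ t : ℝ≥0, (n : ℝ≥0) ≤ t → T t g + ((c * ‖g‖ : ℝ) : ℂ) • T t f₀ ∈ P := by
  have : CompleteSpace P := hP.closed.completeSpace_coe
  have : Nonempty P := ⟨⟨0, hP.zero_mem⟩⟩
  let C : ℕ → Set P := fun n => {f | ∀ t : ℝ≥0, (n : ℝ≥0) ≤ t → T t f.1 ∈ P}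
  have hC : ∀ n, IsClosed (C n) := by
    intro n
    have : C n = ⋂ t : ℝ≥0, ⋂ _ : (n : ℝ≥0) ≤ t, {f : P | T t f.1 ∈ P} := by
      ext f; simp [C]
    rw [this]
    refine isClosed_iInter fun t => isClosed_iInter fun _ => ?_
    exact hP.closed.preimage ((T t).continuous.comp continuous_subtype_val)
  have hU : ⋃ n, C n = univ := by
    ext f
    simp only [mem_iUnion, mem_univ, iff_true]
    obtain ⟨t₀, ht₀⟩ := hpos f.1 f.2
    obtain ⟨n, hn⟩ := exists_nat_ge t₀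
    exact ⟨n, fun t ht => ht₀ t (hn.trans ht)⟩
  obtain ⟨n, hn⟩ := nonempty_interior_of_iUnion_of_closed hC hU
  obtain ⟨f₀, hf₀⟩ := hn
  rw [mem_interior_iff_mem_nhds, Metric.mem_nhds_iff] at hf₀
  obtain ⟨r, hr, hball⟩ := hf₀
  have hf₀C : f₀ ∈ C n := hball (Metric.mem_ball_self hr)
  refine ⟨n, 2 / r, by positivity, f₀.1, f₀.2, hf₀C, ?_⟩
  intro g hg t ht
  rcases eq_or_ne g 0 with rfl | hg0
  · simpa using hP.zero_mem
  have hgn : 0 < ‖g‖ := norm_pos_iff.mpr hg0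
  set s : ℝ := r / (2 * ‖g‖) with hs
  have hs0 : 0 < s := by positivity
  have hmem : f₀.1 + (s : ℂ) • g ∈ P := hP.add_mem _ f₀.2 _ (hP.smul_mem s hs0.le g hg)
  have h1 : (⟨f₀.1 + (s : ℂ) • g, hmem⟩ : P) ∈ C n := by
    apply hball
    rw [Metric.mem_ball, Subtype.dist_eq, dist_eq_norm]
    simp only [add_sub_cancel_left]
    rw [norm_smul, Complex.norm_real, Real.norm_of_nonneg hs0.le, hs]
    have : r / (2 * ‖g‖) * ‖g‖ = r / 2 := by field_simp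
    rw [this]; linarith
  have h2 := h1 t ht
  simp only at h2
  have h3 := hP.smul_mem (2 / r * ‖g‖) (by positivity) _ h2
  have h4 : ((2 / r * ‖g‖ : ℝ) : ℂ) • T t (f₀.1 + (s : ℂ) • g) =
      T t g + ((2 / r * ‖g‖ : ℝ) : ℂ) • T t f₀.1 := by
    rw [map_add, map_smul, smul_add, smul_smul, ← Complex.ofReal_mul]
    have : 2 / r * ‖g‖ * s = 1 := by rw [hs]; field_simp
    rw [this, Complex.ofReal_one, one_smul, add_comm]
  rw [h4] at h3
  exact h3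

/-- Positivity of the kernel operators. -/
lemma kap_mem [CompleteSpace E] (hT : IsC0Semigroup T) {P : Set E} (hP : IsClosedCone P) {n : ℝ≥0}
    {v : E} (hv : ∀ t, n ≤ t → T t v ∈ P) {a b : ℝ} (ha : (n : ℝ) ≤ a) (hab : a ≤ b) :
    kap hT a b v ∈ P := by
  rw [kap_apply]
  apply hP.integral_mem (continuous_orbit hT v) hab
  intro s hs
  apply hv
  rw [Real.le_toNNReal_iff_coe_le ((NNReal.coe_nonneg n).trans (ha.trans hs.1))]
  exact ha.trans hs.1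

/-- Telescoping sum of kernel operators. -/
lemma sum_kapStep (hT : IsC0Semigroup T) (n ν N : ℕ) (v : E) :
    ∑ j ∈ Finset.Ico 1 (N + 1), kapStep hT n ν j v = kap hT n (n + (N : ℝ) / ν) v := by
  induction N with
  | zero => simp [kap_apply]
  | succ N ih =>
    rw [Finset.sum_Ico_succ_top (by omega), ih, kapStep]
    have : (n : ℝ) + (((N + 1 : ℕ) : ℝ) - 1) / ν = n + (N : ℝ) / ν := by push_cast; ring_nf
    rw [this, kap_add]

/-- The order bound for sums `∑ κ_j(g_j)` with `0 ≤ g_j ≤ Φ`. -/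
theorem order_bound [CompleteSpace E] (hT : IsC0Semigroup T) {P : Set E} (hP : IsClosedCone P)
    (hres : ∀ b : ℝ, 0 ≤ b → ∃ R : E →L[ℂ] E, IsResolventAt T (b : ℂ) R)
    {R : E →L[ℂ] E} (hR : IsResolventAt T 0 R) {n : ℕ} {c : ℝ} (hc : 0 ≤ c) {f₀ : E}
    (hf₀ : ∀ t : ℝ≥0, (n : ℝ≥0) ≤ t → T t f₀ ∈ P)
    (hB : ∀ g ∈ P, ∀ t : ℝ≥0, (n : ℝ≥0) ≤ t → T t g + ((c * ‖g‖ : ℝ) : ℂ) • T t f₀ ∈ P)
    {ν : ℕ} (N : ℕ) {g : ℕ → E} {Φ : E} (hΦ : Φ ∈ P) (hg : ∀ j, g j ∈ P)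
    (hgΦ : ∀ j, Φ - g j ∈ P) (hgn : ∀ j, ‖g j‖ ≤ ‖Φ‖) (hgn' : ∀ j, ‖Φ - g j‖ ≤ ‖Φ‖) :
    T (n : ℝ≥0) (R (Φ + ((2 * c * ‖Φ‖ : ℝ) : ℂ) • f₀)) +
        ∑ j ∈ Finset.Ico 1 (N + 1), kapStep hT n ν j (g j) ∈ P ∧
      T (n : ℝ≥0) (R (Φ + ((2 * c * ‖Φ‖ : ℝ) : ℂ) • f₀)) -
        ∑ j ∈ Finset.Ico 1 (N + 1), kapStep hT n ν j (g j) ∈ P := by
  -- general positivity
  have hB' : ∀ g ∈ P, ‖g‖ ≤ ‖Φ‖ → ∀ t : ℝ≥0, (n : ℝ≥0) ≤ t →
      T t (g + ((c * ‖Φ‖ : ℝ) : ℂ) • f₀) ∈ P := by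
    intro g hg hgn t ht
    have h1 := hB g hg t ht
    have h2 := hP.smul_mem (c * (‖Φ‖ - ‖g‖)) (mul_nonneg hc (by linarith)) _ (hf₀ t ht)
    have h3 := hP.add_mem _ h1 _ h2
    have h4 : T t g + ((c * ‖g‖ : ℝ) : ℂ) • T t f₀ + ((c * (‖Φ‖ - ‖g‖) : ℝ) : ℂ) • T t f₀ =
        T t (g + ((c * ‖Φ‖ : ℝ) : ℂ) • f₀) := by
      rw [map_add, map_smul, add_assoc, ← add_smul, ← Complex.ofReal_add]
      congr 3
      ring
    rw [h4] at h3
    exact h3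
  set w : E := Φ + ((c * ‖Φ‖ : ℝ) : ℂ) • f₀ with hw
  set w₂ : E := ((c * ‖Φ‖ : ℝ) : ℂ) • f₀ with hw₂
  have hwpos : ∀ t : ℝ≥0, (n : ℝ≥0) ≤ t → T t w ∈ P := hB' Φ hΦ le_rfl
  have hw₂pos : ∀ t : ℝ≥0, (n : ℝ≥0) ≤ t → T t w₂ ∈ P := by
    intro t ht
    rw [hw₂, map_smul]
    exact hP.smul_mem _ (by positivity) _ (hf₀ t ht)
  have hRw := resolvent_zero_pos hT hP hres hR hwpos
  have hRw₂ := resolvent_zero_pos hT hP hres hR hw₂pos
  set b : ℝ := n + (N : ℝ) / ν with hb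
  have hnb : (n : ℝ) ≤ b := by rw [hb]; have : 0 ≤ (N : ℝ) / ν := by positivity
                               linarith
  have hnn : ((n : ℝ≥0) : ℝ) = (n : ℝ) := by simp
  have hbn : (n : ℝ≥0) ≤ b.toNNReal := by
    rw [Real.le_toNNReal_iff_coe_le ((Nat.cast_nonneg n).trans hnb), hnn]; exact hnb
  have hnT : (n : ℝ).toNNReal = (n : ℝ≥0) := Real.toNNReal_natCast n
  have hsw : ∑ j ∈ Finset.Ico 1 (N + 1), kapStep hT n ν j w =
      T (n : ℝ≥0) (R w) - T b.toNNReal (R w) := by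
    rw [sum_kapStep, kap_eq_resolvent hT hR (Nat.cast_nonneg n) hnb, hnT]
  have hsw₂ : ∑ j ∈ Finset.Ico 1 (N + 1), kapStep hT n ν j w₂ =
      T (n : ℝ≥0) (R w₂) - T b.toNNReal (R w₂) := by
    rw [sum_kapStep, kap_eq_resolvent hT hR (Nat.cast_nonneg n) hnb, hnT]
  have hkmem : ∀ v : E, (∀ t : ℝ≥0, (n : ℝ≥0) ≤ t → T t v ∈ P) → ∀ j ∈ Finset.Ico 1 (N + 1),
      kapStep hT n ν j v ∈ P := by
    intro v hv j hj
    rw [Finset.mem_Ico] at hj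
    have hj1 : (1 : ℝ) ≤ j := by exact_mod_cast hj.1
    rw [kapStep]
    apply kap_mem hT hP hv
    · rw [hnn]
      have : 0 ≤ ((j : ℝ) - 1) / ν := div_nonneg (by linarith) (Nat.cast_nonneg _)
      linarith
    · have : ((j : ℝ) - 1) / ν ≤ (j : ℝ) / ν :=
        div_le_div_of_nonneg_right (by linarith) (Nat.cast_nonneg _)
      linarith
  -- upper bound
  have hup : T (n : ℝ≥0) (R w) - ∑ j ∈ Finset.Ico 1 (N + 1), kapStep hT n ν j (g j) ∈ P := by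
    have e : T (n : ℝ≥0) (R w) - ∑ j ∈ Finset.Ico 1 (N + 1), kapStep hT n ν j (g j) =
        T b.toNNReal (R w) + ∑ j ∈ Finset.Ico 1 (N + 1), kapStep hT n ν j (w - g j) := by
      have : ∑ j ∈ Finset.Ico 1 (N + 1), kapStep hT n ν j (w - g j) =
          ∑ j ∈ Finset.Ico 1 (N + 1), kapStep hT n ν j w -
          ∑ j ∈ Finset.Ico 1 (N + 1), kapStep hT n ν j (g j) := by
        rw [← Finset.sum_sub_distrib]
        exact Finset.sum_congr rfl fun j _ => map_sub _ _ _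
      rw [this, hsw]; abel
    rw [e]
    apply hP.add_mem _ (hRw _ hbn)
    apply hP.sum_mem
    intro j hj
    apply hkmem _ _ j hj
    have e2 : w - g j = (Φ - g j) + ((c * ‖Φ‖ : ℝ) : ℂ) • f₀ := by rw [hw]; abel
    rw [e2]
    exact hB' _ (hgΦ j) (hgn' j)
  have hlow : T (n : ℝ≥0) (R w₂) + ∑ j ∈ Finset.Ico 1 (N + 1), kapStep hT n ν j (g j) ∈ P := by
    have e : T (n : ℝ≥0) (R w₂) + ∑ j ∈ Finset.Ico 1 (N + 1), kapStep hT n ν j (g j) =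
        T b.toNNReal (R w₂) + ∑ j ∈ Finset.Ico 1 (N + 1), kapStep hT n ν j (g j + w₂) := by
      have : ∑ j ∈ Finset.Ico 1 (N + 1), kapStep hT n ν j (g j + w₂) =
          ∑ j ∈ Finset.Ico 1 (N + 1), kapStep hT n ν j (g j) +
          ∑ j ∈ Finset.Ico 1 (N + 1), kapStep hT n ν j w₂ := by
        rw [← Finset.sum_add_distrib]
        exact Finset.sum_congr rfl fun j _ => map_add _ _ _
      rw [this, hsw₂]; abel
    rw [e]
    apply hP.add_mem _ (hRw₂ _ hbn)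
    apply hP.sum_mem
    intro j hj
    exact hkmem _ (hB' _ (hg j) (hgn j)) j hj
  have e3 : T (n : ℝ≥0) (R (Φ + ((2 * c * ‖Φ‖ : ℝ) : ℂ) • f₀)) =
      T (n : ℝ≥0) (R w) + T (n : ℝ≥0) (R w₂) := by
    rw [← map_add, ← map_add]
    congr 2
    rw [hw, hw₂, add_assoc, ← add_smul, ← Complex.ofReal_add]
    congr 3
    ring
  rw [e3]
  constructor
  · have := hP.add_mem _ (hRw _ le_rfl) _ hlow
    rw [add_assoc]; exact this
  · have h9 := hP.add_mem _ hup _ (hRw₂ _ le_rfl)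
    have e9 : T (n : ℝ≥0) (R w) + T (n : ℝ≥0) (R w₂) -
        ∑ j ∈ Finset.Ico 1 (N + 1), kapStep hT n ν j (g j) =
        T (n : ℝ≥0) (R w) - ∑ j ∈ Finset.Ico 1 (N + 1), kapStep hT n ν j (g j) +
        T (n : ℝ≥0) (R w₂) := by abel
    rw [e9]
    exact h9

/-- Reindexing of the weighted sum of a discrete convolution. -/
lemma conv_reindex (hT : IsC0Semigroup T) {n ν m : ℕ} (h : ℝ) (φ : ℕ → ℝ)
    (hφ : ∀ k, k ∉ Finset.Ico ν (ν + m) → φ k = 0) (G : ℕ → E) :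
    (h : ℂ) • ∑ k ∈ Finset.Ico ν (ν + m), (φ k : ℂ) •
        ∑ i ∈ Finset.range ν, kapStep hT n ν (k - i) (G i) =
      ∑ j ∈ Finset.Ico 1 ((ν + m - 1) + 1), kapStep hT n ν j
        ((h : ℂ) • ∑ i ∈ Finset.range ν, (φ (j + i) : ℂ) • G i) := by
  have e1 : ∀ j, kapStep hT n ν j ((h : ℂ) • ∑ i ∈ Finset.range ν, (φ (j + i) : ℂ) • G i) =
      (h : ℂ) • ∑ i ∈ Finset.range ν, (φ (j + i) : ℂ) • kapStep hT n ν j (G i) := by
    intro j
    rw [map_smul, map_sum]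
    congr 1
    exact Finset.sum_congr rfl fun i _ => map_smul _ _ _
  simp_rw [e1]
  rw [← Finset.smul_sum]
  congr 1
  rw [Finset.sum_comm]
  simp_rw [Finset.smul_sum]
  rw [Finset.sum_comm]
  apply Finset.sum_congr rfl
  intro i hi
  rw [Finset.mem_range] at hi
  have e2 : ∑ j ∈ Finset.Ico 1 ((ν + m - 1) + 1), (φ (j + i) : ℂ) • kapStep hT n ν j (G i) =
      ∑ k ∈ Finset.Ico (1 + i) ((ν + m - 1) + 1 + i), (φ k : ℂ) • kapStep hT n ν (k - i) (G i) := by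
    rw [← Finset.sum_Ico_add' (fun k => (φ k : ℂ) • kapStep hT n ν (k - i) (G i)) 1
      ((ν + m - 1) + 1) i]
    apply Finset.sum_congr rfl
    intro j _
    rw [Nat.add_sub_cancel]
  rw [e2]
  apply Finset.sum_subset
  · intro k hk
    rw [Finset.mem_Ico] at hk ⊢
    omega
  · intro k _ hk
    rw [hφ k hk]; simp

end Pool.Agent.H21
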