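import Pool.Agent.H21.Semi5

/-!
# The lattice estimate in `L^p` and boundedness of individually eventually positive semigroups
-/

namespace Pool.Agent.H21

open Filter Topology MeasureTheory Set
open scoped NNReal ENNReal

variable {X : Type*} [MeasurableSpace X] {μ : Measure X} {p : ℝ≥0∞}

/-- The cone of nonnegative functions in the complex space `L^p(μ)`. -/
def posCone (p : ℝ≥0∞) (μ : Measure X) : Set (Lp ℂ p μ) :=
  {f | ∀ᵐ x ∂μ, 0 ≤ (f x).re ∧ (f x).im = 0}

lemma mem_posCone {f : Lp ℂ p μ} : f ∈ posCone p μ ↔ ∀ᵐ x ∂μ, 0 ≤ (f x).re ∧ (f x).im = 0 :=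
  Iff.rfl

lemma isClosedCone_posCone [Fact (1 ≤ p)] : IsClosedCone (posCone p μ) where
  closed := by
    apply IsSeqClosed.isClosed
    intro u f hu hf
    have h1 := tendstoInMeasure_of_tendsto_Lp hf
    obtain ⟨ns, _, hns⟩ := h1.exists_seq_tendsto_ae
    have h2 : ∀ᵐ x ∂μ, ∀ n, 0 ≤ (u n x).re ∧ (u n x).im = 0 := ae_all_iff.mpr hu
    rw [mem_posCone]
    filter_upwards [hns, h2] with x hx h2x
    constructor
    · refine ge_of_tendsto ((Complex.continuous_re.tendsto _).comp hx) ?_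
      exact Eventually.of_forall fun n => (h2x (ns n)).1
    · refine tendsto_nhds_unique ((Complex.continuous_im.tendsto _).comp hx) ?_
      refine tendsto_const_nhds.congr ?_
      intro n
      exact (h2x (ns n)).2.symm
  zero_mem := by
    rw [mem_posCone]
    filter_upwards [Lp.coeFn_zero ℂ p μ] with x hx
    rw [hx]; simp
  add_mem := by
    intro f hf g hg
    rw [mem_posCone] at *
    filter_upwards [Lp.coeFn_add f g, hf, hg] with x hx h1 h2
    rw [hx]
    simp only [Pi.add_apply, Complex.add_re, Complex.add_im]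
    constructor
    · linarith [h1.1, h2.1]
    · rw [h1.2, h2.2, add_zero]
  smul_mem := by
    intro c hc f hf
    rw [mem_posCone] at *
    filter_upwards [Lp.coeFn_smul (c : ℂ) f, hf] with x hx h1
    rw [hx]
    simp only [Pi.smul_apply, smul_eq_mul, Complex.mul_re, Complex.mul_im, Complex.ofReal_re,
      Complex.ofReal_im]
    constructor
    · rw [zero_mul, sub_zero]; exact mul_nonneg hc h1.1
    · rw [h1.2]; simp

lemma norm_le_of_posCone [Fact (1 ≤ p)] {f g : Lp ℂ p μ} (hf : f ∈ posCone p μ)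
    (hfg : g - f ∈ posCone p μ) : ‖f‖ ≤ ‖g‖ := by
  apply Lp.norm_le_norm_of_ae_le
  rw [mem_posCone] at hf hfg
  filter_upwards [hf, hfg, Lp.coeFn_sub g f] with x h1 h2 h3
  rw [h3] at h2
  simp only [Pi.sub_apply, Complex.sub_re, Complex.sub_im] at h2
  have e1 : f x = ((f x).re : ℂ) := by apply Complex.ext <;> simp [h1.2]
  have e2 : g x = ((g x).re : ℂ) := by
    apply Complex.ext <;> simp
    have := h2.2; rw [h1.2, sub_zero] at this; exact this
  rw [e1, e2, Complex.norm_real, Complex.norm_real, Real.norm_of_nonneg h1.1,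
    Real.norm_of_nonneg (h1.1.trans (by linarith [h2.1]))]
  linarith [h2.1]

/-- Decomposition of a function into four nonnegative parts. -/
lemma exists_decomp [Fact (1 ≤ p)] (x : Lp ℂ p μ) :
    ∃ x₁ ∈ posCone p μ, ∃ x₂ ∈ posCone p μ, ∃ x₃ ∈ posCone p μ, ∃ x₄ ∈ posCone p μ,
      x = x₁ - x₂ + Complex.I • (x₃ - x₄) ∧ ‖x₁‖ ≤ ‖x‖ ∧ ‖x₂‖ ≤ ‖x‖ ∧ ‖x₃‖ ≤ ‖x‖ ∧
      ‖x₄‖ ≤ ‖x‖ := by
  have key : ∀ F : ℂ → ℝ, Continuous F → (∀ z, 0 ≤ F z) → (∀ z, F z ≤ ‖z‖) →
      ∃ y : Lp ℂ p μ, y ∈ posCone p μ ∧ ‖y‖ ≤ ‖x‖ ∧ ∀ᵐ t ∂μ, y t = ((F (x t) : ℝ) : ℂ) := by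
    intro F hF h0 h1
    have hm : AEStronglyMeasurable (fun t => ((F (x t) : ℝ) : ℂ)) μ :=
      (Complex.continuous_ofReal.comp hF).comp_aestronglyMeasurable (Lp.aestronglyMeasurable x)
    have hL : MemLp (fun t => ((F (x t) : ℝ) : ℂ)) p μ := by
      refine (Lp.memLp x).of_le hm ?_
      filter_upwards with t
      rw [Complex.norm_real, Real.norm_of_nonneg (h0 _)]
      exact h1 _
    refine ⟨hL.toLp _, ?_, ?_, hL.coeFn_toLp⟩
    · rw [mem_posCone]
      filter_upwards [hL.coeFn_toLp] with t ht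
      rw [ht]; simp [h0]
    · apply Lp.norm_le_norm_of_ae_le
      filter_upwards [hL.coeFn_toLp] with t ht
      rw [ht, Complex.norm_real, Real.norm_of_nonneg (h0 _)]
      exact h1 _
  obtain ⟨x₁, p₁, n₁, e₁⟩ := key (fun z => max z.re 0) (by fun_prop) (fun z => le_max_right _ _)
    (fun z => max_le ((le_abs_self _).trans (Complex.abs_re_le_norm z)) (norm_nonneg _))
  obtain ⟨x₂, p₂, n₂, e₂⟩ := key (fun z => max (-z.re) 0) (by fun_prop) (fun z => le_max_right _ _)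
    (fun z => max_le ((neg_le_abs _).trans (Complex.abs_re_le_norm z)) (norm_nonneg _))
  obtain ⟨x₃, p₃, n₃, e₃⟩ := key (fun z => max z.im 0) (by fun_prop) (fun z => le_max_right _ _)
    (fun z => max_le ((le_abs_self _).trans (Complex.abs_im_le_norm z)) (norm_nonneg _))
  obtain ⟨x₄, p₄, n₄, e₄⟩ := key (fun z => max (-z.im) 0) (by fun_prop) (fun z => le_max_right _ _)
    (fun z => max_le ((neg_le_abs _).trans (Complex.abs_im_le_norm z)) (norm_nonneg _))
  refine ⟨x₁, p₁, x₂, p₂, x₃, p₃, x₄, p₄, ?_, n₁, n₂, n₃, n₄⟩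
  apply Lp.ext
  filter_upwards [e₁, e₂, e₃, e₄, Lp.coeFn_add (x₁ - x₂) (Complex.I • (x₃ - x₄)),
    Lp.coeFn_sub x₁ x₂, Lp.coeFn_smul Complex.I (x₃ - x₄), Lp.coeFn_sub x₃ x₄]
    with t h1 h2 h3 h4 h5 h6 h7 h8
  rw [h5, Pi.add_apply, h6, h7, Pi.smul_apply, h8, Pi.sub_apply, Pi.sub_apply, h1, h2, h3, h4]
  have hmax : ∀ r : ℝ, max r 0 - max (-r) 0 = r := by
    intro r
    rcases le_total 0 r with h | h
    · rw [max_eq_left h, max_eq_right (by linarith), sub_zero]
    · rw [max_eq_right h, max_eq_left (by linarith)]; ring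
  rw [← Complex.ofReal_sub, ← Complex.ofReal_sub, hmax, hmax]
  apply Complex.ext <;> simp

end Pool.Agent.H21
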