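import Pool.Agent.H21.Semi6

/-!
# The lattice estimate in `L^p`: dual weights
-/

namespace Pool.Agent.H21

open Filter Topology MeasureTheory Set
open scoped NNReal ENNReal

/-- Admissible weights for the duality argument. -/
def wts (r h : ℝ) (ν m : ℕ) : Set (ℕ → ℝ) :=
  {φ | (∀ k, 0 ≤ φ k) ∧ (∀ k, k ∉ Finset.Ico ν (ν + m) → φ k = 0) ∧
    ∀ j, ∀ ρ : ℕ → ℝ, (∀ i, 0 ≤ ρ i) →
      h * ∑ i ∈ Finset.range ν, φ (j + i) * ρ i ≤ (h * ∑ i ∈ Finset.range ν, ρ i ^ r) ^ (1 / r)}

lemma dual_pos {r h : ℝ} (hr : 1 ≤ r) (hh : 0 < h) {ν m : ℕ} {v : ℕ → ℝ} {W : ℝ} (hW : 0 ≤ W)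
    (hv : ∀ φ ∈ wts r h ν m, h * ∑ k ∈ Finset.Ico ν (ν + m), φ k * v k ≤ W) :
    h * ∑ k ∈ Finset.Ico ν (ν + m), (max (v k) 0) ^ r ≤ W ^ r := by
  classical
  have hr0 : 0 < r := by linarith
  set S : ℝ := h * ∑ k ∈ Finset.Ico ν (ν + m), (max (v k) 0) ^ r with hS
  have hS0 : 0 ≤ S := by
    apply mul_nonneg hh.le
    exact Finset.sum_nonneg fun k _ => by positivity
  rcases hS0.eq_or_lt with h0 | hSpos
  · rw [← h0]; positivity
  set N : ℝ := S ^ (1 / r) with hN
  have hN0 : 0 < N := by positivity
  have hNr : N ^ r = S := by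
    rw [hN, ← Real.rpow_mul hSpos.le, one_div, inv_mul_cancel₀ hr0.ne', Real.rpow_one]
  -- the weights
  let φ : ℕ → ℝ := fun k =>
    if k ∈ Finset.Ico ν (ν + m) ∧ 0 < v k then (v k / N) ^ (r - 1) else 0
  have hφ0 : ∀ k, 0 ≤ φ k := by
    intro k
    simp only [φ]
    split_ifs with h1
    · have := h1.2
      positivity
    · exact le_rfl
  have hφ : φ ∈ wts r h ν m := by
    refine ⟨hφ0, ?_, ?_⟩
    · intro k hk
      simp only [φ]
      rw [if_neg]
      exact fun h1 => hk h1.1
    · intro j ρ hρ
      rcases hr.eq_or_lt with h1 | h1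
      · -- r = 1
        subst h1
        simp only [Real.rpow_one, div_one]
        gcongr with i _
        have : φ (j + i) ≤ 1 := by
          simp only [φ, sub_self, Real.rpow_zero]
          split_ifs <;> norm_num
        calc φ (j + i) * ρ i ≤ 1 * ρ i := by gcongr; exact hρ i
          _ = ρ i := one_mul _
      · set q : ℝ := r / (r - 1) with hq
        have hr1 : 0 < r - 1 := by linarith
        have hconj : r.HolderConjugate q := by
          rw [Real.holderConjugate_iff]
          refine ⟨h1, ?_⟩
          rw [hq, inv_div]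
          field_simp
          ring
        have hq0 : 0 < q := by positivity
        have hH := Real.inner_le_Lp_mul_Lq_of_nonneg (Finset.range ν) hconj
          (f := fun i => h ^ (1 / r) * ρ i) (g := fun i => h ^ (1 / q) * φ (j + i))
          (fun i _ => mul_nonneg (by positivity) (hρ i))
          (fun i _ => mul_nonneg (by positivity) (hφ0 _))
        have hhr : h ^ (1 / r) * h ^ (1 / q) = h := by
          rw [← Real.rpow_add hh, one_div, one_div, hconj.inv_add_inv_eq_one, Real.rpow_one]
        have hl : ∑ i ∈ Finset.range ν, h ^ (1 / r) * ρ i * (h ^ (1 / q) * φ (j + i)) =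
            h * ∑ i ∈ Finset.range ν, φ (j + i) * ρ i := by
          rw [Finset.mul_sum]
          apply Finset.sum_congr rfl
          intro i _
          calc h ^ (1 / r) * ρ i * (h ^ (1 / q) * φ (j + i))
              = (h ^ (1 / r) * h ^ (1 / q)) * (φ (j + i) * ρ i) := by ring
            _ = _ := by rw [hhr]
        have e1 : ∑ i ∈ Finset.range ν, (h ^ (1 / r) * ρ i) ^ r =
            h * ∑ i ∈ Finset.range ν, ρ i ^ r := by
          rw [Finset.mul_sum]
          apply Finset.sum_congr rfl
          intro i _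
          rw [Real.mul_rpow (by positivity) (hρ i), ← Real.rpow_mul hh.le, one_div,
            inv_mul_cancel₀ hr0.ne', Real.rpow_one]
        have e2 : ∑ i ∈ Finset.range ν, (h ^ (1 / q) * φ (j + i)) ^ q =
            h * ∑ i ∈ Finset.range ν, φ (j + i) ^ q := by
          rw [Finset.mul_sum]
          apply Finset.sum_congr rfl
          intro i _
          rw [Real.mul_rpow (by positivity) (hφ0 _), ← Real.rpow_mul hh.le, one_div,
            inv_mul_cancel₀ hq0.ne', Real.rpow_one]
        rw [hl, e1, e2] at hH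
        have e3 : h * ∑ i ∈ Finset.range ν, φ (j + i) ^ q ≤ 1 := by
          have e4 : ∀ k, φ k ^ q = if k ∈ Finset.Ico ν (ν + m) then (max (v k) 0) ^ r / S else 0 := by
            intro k
            simp only [φ]
            by_cases hk : k ∈ Finset.Ico ν (ν + m)
            · by_cases hvk : 0 < v k
              · rw [if_pos ⟨hk, hvk⟩, if_pos hk, ← Real.rpow_mul (by positivity), max_eq_left hvk.le]
                have : (r - 1) * q = r := by rw [hq]; field_simp
                rw [this, Real.div_rpow hvk.le hN0.le, hNr]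
              · rw [if_neg (fun h => hvk h.2), if_pos hk, max_eq_right (not_lt.mp hvk),
                  Real.zero_rpow hq0.ne', Real.zero_rpow hr0.ne', zero_div]
            · rw [if_neg (fun h => hk h.1), if_neg hk, Real.zero_rpow hq0.ne']
          have e5 : ∑ i ∈ Finset.range ν, φ (j + i) ^ q ≤
              ∑ k ∈ Finset.Ico ν (ν + m), φ k ^ q := by
            have : ∑ i ∈ Finset.range ν, φ (j + i) ^ q =
                ∑ k ∈ Finset.Ico j (j + ν), φ k ^ q := by
              rw [Finset.sum_Ico_eq_sum_range, Nat.add_sub_cancel_left]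
            rw [this]
            have h6 : ∑ k ∈ Finset.Ico j (j + ν), φ k ^ q =
                ∑ k ∈ (Finset.Ico j (j + ν)) ∩ (Finset.Ico ν (ν + m)), φ k ^ q := by
              symm
              apply Finset.sum_subset Finset.inter_subset_left
              intro k hk hk'
              rw [e4, if_neg]
              intro h7
              exact hk' (Finset.mem_inter.mpr ⟨hk, h7⟩)
            rw [h6]
            apply Finset.sum_le_sum_of_subset_of_nonneg Finset.inter_subset_right
            intro k _ _
            exact Real.rpow_nonneg (hφ0 k) _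
          have e6 : ∑ k ∈ Finset.Ico ν (ν + m), φ k ^ q =
              ∑ k ∈ Finset.Ico ν (ν + m), (max (v k) 0) ^ r / S := by
            apply Finset.sum_congr rfl
            intro k hk
            rw [e4, if_pos hk]
          calc h * ∑ i ∈ Finset.range ν, φ (j + i) ^ q
              ≤ h * ∑ k ∈ Finset.Ico ν (ν + m), (max (v k) 0) ^ r / S := by
                rw [← e6]; gcongr
            _ = S / S := by
                rw [← Finset.sum_div, ← mul_div_assoc, ← hS]
            _ = 1 := div_self hSpos.ne'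
        have e7 : (h * ∑ i ∈ Finset.range ν, φ (j + i) ^ q) ^ (1 / q) ≤ 1 := by
          apply Real.rpow_le_one _ e3 (by positivity)
          apply mul_nonneg hh.le
          exact Finset.sum_nonneg fun k _ => Real.rpow_nonneg (hφ0 _) _
        refine hH.trans ?_
        calc _ ≤ (h * ∑ i ∈ Finset.range ν, ρ i ^ r) ^ (1 / r) * 1 := by
              apply mul_le_mul_of_nonneg_left e7
              apply Real.rpow_nonneg
              apply mul_nonneg hh.le
              exact Finset.sum_nonneg fun k _ => Real.rpow_nonneg (hρ _) _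
          _ = _ := mul_one _
  have hfin := hv φ hφ
  have e8 : h * ∑ k ∈ Finset.Ico ν (ν + m), φ k * v k = N := by
    have e9 : ∀ k ∈ Finset.Ico ν (ν + m), φ k * v k = (max (v k) 0) ^ r / N ^ (r - 1) := by
      intro k hk
      simp only [φ]
      by_cases hvk : 0 < v k
      · rw [if_pos ⟨hk, hvk⟩, max_eq_left hvk.le, Real.div_rpow hvk.le hN0.le]
        have : v k ^ r = v k ^ (r - 1) * v k := by
          rw [← Real.rpow_add_one hvk.ne']; congr 1; ring
        rw [this]; ring
      · rw [if_neg (fun h => hvk h.2), max_eq_right (not_lt.mp hvk), Real.zero_rpow hr0.ne']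
        simp
    rw [Finset.sum_congr rfl e9, ← Finset.sum_div, ← mul_div_assoc, ← hS, ← hNr]
    rw [← Real.rpow_sub hN0]
    have : r - (r - 1) = 1 := by ring
    rw [this, Real.rpow_one]
  rw [e8] at hfin
  rw [← hNr]
  gcongr

lemma dual_abs {r h : ℝ} (hr : 1 ≤ r) (hh : 0 < h) {ν m : ℕ} {v : ℕ → ℝ} {W : ℝ} (hW : 0 ≤ W)
    (hv : ∀ φ ∈ wts r h ν m, |h * ∑ k ∈ Finset.Ico ν (ν + m), φ k * v k| ≤ W) :
    h * ∑ k ∈ Finset.Ico ν (ν + m), |v k| ^ r ≤ 2 * W ^ r := by
  have hr0 : 0 < r := by linarith
  have h1 := dual_pos hr hh hW (v := v) (fun φ hφ => (le_abs_self _).trans (hv φ hφ))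
  have h2 := dual_pos hr hh hW (v := fun k => -v k) (ν := ν) (m := m) (fun φ hφ => by
    refine le_trans ?_ (hv φ hφ)
    have : h * ∑ k ∈ Finset.Ico ν (ν + m), φ k * -v k =
        -(h * ∑ k ∈ Finset.Ico ν (ν + m), φ k * v k) := by
      simp [Finset.sum_neg_distrib]
    rw [this]
    exact neg_le_abs _)
  have h3 : h * ∑ k ∈ Finset.Ico ν (ν + m), |v k| ^ r =
      h * ∑ k ∈ Finset.Ico ν (ν + m), (max (v k) 0) ^ r +
      h * ∑ k ∈ Finset.Ico ν (ν + m), (max (-v k) 0) ^ r := by
    rw [← mul_add, ← Finset.sum_add_distrib]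
    congr 1
    apply Finset.sum_congr rfl
    intro k _
    rcases le_total 0 (v k) with h | h
    · rw [abs_of_nonneg h, max_eq_left h, max_eq_right (by linarith), Real.zero_rpow hr0.ne',
        add_zero]
    · rw [abs_of_nonpos h, max_eq_right h, max_eq_left (by linarith), Real.zero_rpow hr0.ne',
        zero_add]
  rw [h3]
  linarith

end Pool.Agent.H21
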