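import Pool.Agent.H21.Semi7

/-!
# Individually eventually positive semigroups on `L^p`: spectral bound equals growth bound
-/

namespace Pool.Agent.H21

open Filter Topology MeasureTheory Set
open scoped NNReal ENNReal

variable {X : Type*} [MeasurableSpace X] {μ : Measure X} {p : ℝ≥0∞}

lemma enorm_rpow_Lp [Fact (1 ≤ p)] (hp : p ≠ ∞) (f : Lp ℂ p μ) :
    ‖f‖ₑ ^ p.toReal = ∫⁻ x, ‖f x‖ₑ ^ p.toReal ∂μ := by
  have hp1 : 1 ≤ p := Fact.out
  have hp0 : p ≠ 0 := (lt_of_lt_of_le zero_lt_one hp1).ne'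
  have hpr : 0 < p.toReal := ENNReal.toReal_pos hp0 hp
  rw [Lp.enorm_def, eLpNorm_eq_lintegral_rpow_enorm_toReal hp0 hp, ← ENNReal.rpow_mul, one_div,
    inv_mul_cancel₀ hpr.ne', ENNReal.rpow_one]

/-- The `ℓ^p`-mean `(h ∑ G_i^p)^(1/p)` of finitely many nonnegative functions. -/
lemma exists_mean [Fact (1 ≤ p)] (hp : p ≠ ∞) {h : ℝ} (hh : 0 ≤ h) (ν : ℕ) (G : ℕ → Lp ℂ p μ) :
    ∃ Φ ∈ posCone p μ,
      (∀ᵐ x ∂μ, Φ x = (((h * ∑ i ∈ Finset.range ν, |(G i x).re| ^ p.toReal) ^ (1 / p.toReal) : ℝ) : ℂ)) ∧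
      ‖Φ‖ ^ p.toReal ≤ h * ∑ i ∈ Finset.range ν, ‖G i‖ ^ p.toReal := by
  have hp1 : 1 ≤ p := Fact.out
  have hp0 : p ≠ 0 := (lt_of_lt_of_le zero_lt_one hp1).ne'
  set r : ℝ := p.toReal with hr
  have hr1 : 1 ≤ r := by
    rw [hr, ← ENNReal.toReal_one]
    exact (ENNReal.toReal_le_toReal ENNReal.one_ne_top hp).mpr hp1
  have hr0 : 0 < r := by linarith
  set F : X → ℝ := fun x => (h * ∑ i ∈ Finset.range ν, |(G i x).re| ^ r) ^ (1 / r) with hF
  have hF0 : ∀ x, 0 ≤ F x := fun x => by positivity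
  have hFm : AEStronglyMeasurable F μ := by
    have h1 : ∀ i, AEMeasurable (fun x => |(G i x).re|) μ := by
      intro i
      have h2 : AEMeasurable (G i) μ := (Lp.aestronglyMeasurable (G i)).aemeasurable
      exact (Complex.measurable_re.comp_aemeasurable h2).abs
    apply AEMeasurable.aestronglyMeasurable
    apply AEMeasurable.pow_const
    apply AEMeasurable.const_mul
    apply Finset.aemeasurable_fun_sum
    intro i _
    exact (h1 i).pow_const r
  have hFr : ∀ x, F x ^ r = h * ∑ i ∈ Finset.range ν, |(G i x).re| ^ r := by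
    intro x
    simp only [hF]
    rw [← Real.rpow_mul (by positivity), one_div, inv_mul_cancel₀ hr0.ne', Real.rpow_one]
  have hint : ∫⁻ x, ‖((F x : ℝ) : ℂ)‖ₑ ^ r ∂μ ≤
      ENNReal.ofReal (h * ∑ i ∈ Finset.range ν, ‖G i‖ ^ r) := by
    have h1 : ∀ x, ‖((F x : ℝ) : ℂ)‖ₑ ^ r ≤
        ∑ i ∈ Finset.range ν, ENNReal.ofReal h * ‖G i x‖ₑ ^ r := by
      intro x
      rw [← ofReal_norm, Complex.norm_real, Real.norm_of_nonneg (hF0 x),
        ENNReal.ofReal_rpow_of_nonneg (hF0 x) hr0.le, hFr, ENNReal.ofReal_mul hh,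
        ENNReal.ofReal_sum_of_nonneg (fun i _ => by positivity), Finset.mul_sum]
      gcongr with i _
      rw [← ENNReal.ofReal_rpow_of_nonneg (abs_nonneg _) hr0.le, ← ofReal_norm]
      gcongr
      exact Complex.abs_re_le_norm _
    calc ∫⁻ x, ‖((F x : ℝ) : ℂ)‖ₑ ^ r ∂μ
        ≤ ∫⁻ x, ∑ i ∈ Finset.range ν, ENNReal.ofReal h * ‖G i x‖ₑ ^ r ∂μ := lintegral_mono h1
      _ = ∑ i ∈ Finset.range ν, ENNReal.ofReal h * ‖G i‖ₑ ^ r := by
          rw [lintegral_finsetSum']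
          · apply Finset.sum_congr rfl
            intro i _
            rw [lintegral_const_mul' _ _ ENNReal.ofReal_ne_top, enorm_rpow_Lp hp]
          · intro i _
            exact ((Lp.aestronglyMeasurable (G i)).enorm.pow_const r).const_mul _
      _ = ENNReal.ofReal (h * ∑ i ∈ Finset.range ν, ‖G i‖ ^ r) := by
          rw [ENNReal.ofReal_mul hh, ENNReal.ofReal_sum_of_nonneg (fun i _ => by positivity),
            Finset.mul_sum]
          apply Finset.sum_congr rfl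
          intro i _
          rw [← ENNReal.ofReal_rpow_of_nonneg (norm_nonneg _) hr0.le, ofReal_norm]
  have hFc : AEStronglyMeasurable (fun x => ((F x : ℝ) : ℂ)) μ :=
    Complex.continuous_ofReal.comp_aestronglyMeasurable hFm
  have hL : MemLp (fun x => ((F x : ℝ) : ℂ)) p μ := by
    refine ⟨hFc, ?_⟩
    rw [eLpNorm_eq_lintegral_rpow_enorm_toReal hp0 hp]
    apply ENNReal.rpow_lt_top_of_nonneg (by positivity)
    exact (lt_of_le_of_lt hint ENNReal.ofReal_lt_top).ne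
  refine ⟨hL.toLp _, ?_, hL.coeFn_toLp, ?_⟩
  · rw [mem_posCone]
    filter_upwards [hL.coeFn_toLp] with x hx
    rw [hx]
    exact ⟨by rw [Complex.ofReal_re]; exact hF0 x, Complex.ofReal_im _⟩
  · have h2 : ‖hL.toLp _‖ₑ ^ r ≤ ENNReal.ofReal (h * ∑ i ∈ Finset.range ν, ‖G i‖ ^ r) := by
      rw [hr, enorm_rpow_Lp hp, ← hr]
      refine le_trans (le_of_eq ?_) hint
      apply lintegral_congr_ae
      filter_upwards [hL.coeFn_toLp] with x hx
      rw [hx]
    rw [← ofReal_norm, ENNReal.ofReal_rpow_of_nonneg (norm_nonneg _) hr0.le] at h2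
    rwa [ENNReal.ofReal_le_ofReal_iff (by positivity)] at h2

variable [Fact (1 ≤ p)] {T : ℝ≥0 → Lp ℂ p μ →L[ℂ] Lp ℂ p μ}

/-- The discrete convolution estimate for individually eventually positive semigroups. -/
theorem convEstimate_Lp (hp : p ≠ ∞) (hT : IsC0Semigroup T)
    (hres : ∀ b : ℝ, 0 ≤ b → ∃ R : Lp ℂ p μ →L[ℂ] Lp ℂ p μ, IsResolventAt T (b : ℂ) R)
    {R : Lp ℂ p μ →L[ℂ] Lp ℂ p μ} (hR : IsResolventAt T 0 R) {n : ℕ} {c : ℝ} (hc : 0 ≤ c)
    {f₀ : Lp ℂ p μ} (hf₀ : ∀ t : ℝ≥0, (n : ℝ≥0) ≤ t → T t f₀ ∈ posCone p μ)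
    (hB : ∀ g ∈ posCone p μ, ∀ t : ℝ≥0, (n : ℝ≥0) ≤ t →
      T t g + ((c * ‖g‖ : ℝ) : ℂ) • T t f₀ ∈ posCone p μ) :
    ConvEstimate hT (posCone p μ) p.toReal n
      (2 * (‖T n‖ * ‖R‖ * (1 + 2 * c * ‖f₀‖)) ^ p.toReal) := by
  have hp1 : 1 ≤ p := Fact.out
  have hp0 : p ≠ 0 := (lt_of_lt_of_le zero_lt_one hp1).ne'
  set r : ℝ := p.toReal with hr
  have hr1 : 1 ≤ r := by
    rw [hr, ← ENNReal.toReal_one]
    exact (ENNReal.toReal_le_toReal ENNReal.one_ne_top hp).mpr hp1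
  have hr0 : 0 < r := by linarith
  have hP : IsClosedCone (posCone p μ) := isClosedCone_posCone
  intro ν hν m G hG
  set h : ℝ := (ν : ℝ)⁻¹ with hh
  have hνr : (0 : ℝ) < ν := by exact_mod_cast hν
  have hh0 : 0 < h := by positivity
  obtain ⟨Φ, hΦP, hΦx, hΦn⟩ := exists_mean hp hh0.le ν G
  set W : Lp ℂ p μ := T (n : ℝ≥0) (R (Φ + ((2 * c * ‖Φ‖ : ℝ) : ℂ) • f₀)) with hW
  set V : ℕ → Lp ℂ p μ := fun k => ∑ i ∈ Finset.range ν, kapStep hT n ν (k - i) (G i) with hV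
  -- for each admissible weight
  have hkey : ∀ φ ∈ wts r h ν m, ∀ᵐ x ∂μ,
      |h * ∑ k ∈ Finset.Ico ν (ν + m), φ k * (V k x).re| ≤ (W x).re ∧
      |h * ∑ k ∈ Finset.Ico ν (ν + m), φ k * (V k x).im| ≤ 0 := by
    intro φ hφ
    obtain ⟨hφ0, hφs, hφj⟩ := hφ
    set g : ℕ → Lp ℂ p μ := fun j => (h : ℂ) • ∑ i ∈ Finset.range ν, (φ (j + i) : ℂ) • G i with hg
    have hgP : ∀ j, g j ∈ posCone p μ := by
      intro j
      apply hP.smul_mem h hh0.le
      apply hP.sum_mem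
      intro i _
      exact hP.smul_mem _ (hφ0 _) _ (hG i)
    have hgx : ∀ j, ∀ᵐ x ∂μ, g j x = ((h * ∑ i ∈ Finset.range ν, φ (j + i) * |(G i x).re| : ℝ) : ℂ) := by
      intro j
      have h1 : ∀ᵐ x ∂μ, ∀ i, ((φ (j + i) : ℂ) • G i) x = (φ (j + i) : ℂ) • G i x :=
        ae_all_iff.mpr fun i => Lp.coeFn_smul _ _
      have h2 : ∀ᵐ x ∂μ, ∀ i, 0 ≤ (G i x).re ∧ (G i x).im = 0 := ae_all_iff.mpr hG
      filter_upwards [Lp.coeFn_smul (h : ℂ) (∑ i ∈ Finset.range ν, (φ (j + i) : ℂ) • G i),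
        Lp.coeFn_finsetSum (Finset.range ν) (fun i => (φ (j + i) : ℂ) • G i), h1, h2]
        with x hx1 hx2 hx3 hx4
      rw [hg]
      simp only
      rw [hx1, Pi.smul_apply, hx2]
      push_cast
      rw [smul_eq_mul]
      congr 1
      rw [Finset.sum_apply]
      apply Finset.sum_congr rfl
      intro i _
      rw [hx3 i, smul_eq_mul]
      congr 1
      rw [abs_of_nonneg (hx4 i).1]
      apply Complex.ext
      · simp
      · simp [(hx4 i).2]
    have hgΦ : ∀ j, Φ - g j ∈ posCone p μ := by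
      intro j
      rw [mem_posCone]
      filter_upwards [Lp.coeFn_sub Φ (g j), hΦx, hgx j] with x hx1 hx2 hx3
      rw [hx1, Pi.sub_apply, hx2, hx3, ← Complex.ofReal_sub]
      refine ⟨?_, Complex.ofReal_im _⟩
      rw [Complex.ofReal_re, sub_nonneg]
      exact hφj j _ fun i => abs_nonneg _
    have hgn : ∀ j, ‖g j‖ ≤ ‖Φ‖ := fun j => norm_le_of_posCone (hgP j) (hgΦ j)
    have hgn' : ∀ j, ‖Φ - g j‖ ≤ ‖Φ‖ := by
      intro j
      apply norm_le_of_posCone (hgΦ j)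
      rw [sub_sub_cancel]
      exact hgP j
    have hO := order_bound hT hP hres hR hc hf₀ hB (ν := ν) (ν + m - 1) hΦP hgP hgΦ hgn hgn'
    have hre := conv_reindex hT (n := n) h φ hφs G
    rw [← hre, ← hW] at hO
    set U : Lp ℂ p μ := (h : ℂ) • ∑ k ∈ Finset.Ico ν (ν + m), (φ k : ℂ) •
        ∑ i ∈ Finset.range ν, kapStep hT n ν (k - i) (G i) with hU
    have hUx : ∀ᵐ x ∂μ, U x = (h : ℂ) * ∑ k ∈ Finset.Ico ν (ν + m), (φ k : ℂ) * V k x := by
      have h1 : ∀ᵐ x ∂μ, ∀ k, ((φ k : ℂ) • V k) x = (φ k : ℂ) • V k x :=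
        ae_all_iff.mpr fun i => Lp.coeFn_smul _ _
      filter_upwards [Lp.coeFn_smul (h : ℂ) (∑ k ∈ Finset.Ico ν (ν + m), (φ k : ℂ) • V k),
        Lp.coeFn_finsetSum (Finset.Ico ν (ν + m)) (fun k => (φ k : ℂ) • V k), h1]
        with x hx1 hx2 hx3
      have : U = (h : ℂ) • ∑ k ∈ Finset.Ico ν (ν + m), (φ k : ℂ) • V k := rfl
      rw [this, hx1, Pi.smul_apply, hx2, Finset.sum_apply, smul_eq_mul]
      congr 1
      apply Finset.sum_congr rfl
      intro k _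
      rw [hx3 k, smul_eq_mul]
    have hO1 := hO.1
    have hO2 := hO.2
    rw [mem_posCone] at hO1 hO2
    filter_upwards [hUx, hO1, hO2, Lp.coeFn_add W U, Lp.coeFn_sub W U] with x hx1 hx2 hx3 hx4 hx5
    rw [hx4, Pi.add_apply] at hx2
    rw [hx5, Pi.sub_apply] at hx3
    have e1 : (U x).re = h * ∑ k ∈ Finset.Ico ν (ν + m), φ k * (V k x).re := by
      rw [hx1, Complex.re_ofReal_mul, Complex.re_sum]
      congr 1
      apply Finset.sum_congr rfl
      intro k _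
      rw [Complex.re_ofReal_mul]
    have e2 : (U x).im = h * ∑ k ∈ Finset.Ico ν (ν + m), φ k * (V k x).im := by
      rw [hx1, Complex.im_ofReal_mul, Complex.im_sum]
      congr 1
      apply Finset.sum_congr rfl
      intro k _
      rw [Complex.im_ofReal_mul]
    simp only [Complex.add_re, Complex.add_im, Complex.sub_re, Complex.sub_im] at hx2 hx3
    constructor
    · rw [← e1, abs_le]
      constructor <;> linarith [hx2.1, hx3.1]
    · rw [← e2]
      have : (U x).im = 0 := by linarith [hx2.2, hx3.2]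
      rw [this]; simp
  -- all weights simultaneously
  have hall : ∀ᵐ x ∂μ, ∀ φ ∈ wts r h ν m,
      |h * ∑ k ∈ Finset.Ico ν (ν + m), φ k * (V k x).re| ≤ (W x).re ∧
      |h * ∑ k ∈ Finset.Ico ν (ν + m), φ k * (V k x).im| ≤ 0 := by
    obtain ⟨D, hDc, hDd⟩ := TopologicalSpace.exists_countable_dense (wts r h ν m)
    have h1 : ∀ᵐ x ∂μ, ∀ φ ∈ D,
        |h * ∑ k ∈ Finset.Ico ν (ν + m), φ.1 k * (V k x).re| ≤ (W x).re ∧
        |h * ∑ k ∈ Finset.Ico ν (ν + m), φ.1 k * (V k x).im| ≤ 0 := by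
      rw [ae_ball_iff hDc]
      intro φ _
      exact hkey φ.1 φ.2
    filter_upwards [h1] with x hx
    have hcl : IsClosed {φ : wts r h ν m |
        |h * ∑ k ∈ Finset.Ico ν (ν + m), φ.1 k * (V k x).re| ≤ (W x).re ∧
        |h * ∑ k ∈ Finset.Ico ν (ν + m), φ.1 k * (V k x).im| ≤ 0} := by
      have hc1 : ∀ k, Continuous fun φ : wts r h ν m => φ.1 k := fun k =>
        (continuous_apply k).comp continuous_subtype_val
      have hc2 : Continuous fun φ : wts r h ν m =>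
          |h * ∑ k ∈ Finset.Ico ν (ν + m), φ.1 k * (V k x).re| := by
        apply Continuous.abs
        apply continuous_const.mul
        apply continuous_finsetSum
        intro k _
        exact (hc1 k).mul continuous_const
      have hc3 : Continuous fun φ : wts r h ν m =>
          |h * ∑ k ∈ Finset.Ico ν (ν + m), φ.1 k * (V k x).im| := by
        apply Continuous.abs
        apply continuous_const.mul
        apply continuous_finsetSum
        intro k _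
        exact (hc1 k).mul continuous_const
      exact (isClosed_le hc2 continuous_const).inter (isClosed_le hc3 continuous_const)
    intro φ hφ
    have h2 : (⟨φ, hφ⟩ : wts r h ν m) ∈ closure D := hDd _
    exact (closure_minimal (fun ψ hψ => hx ψ hψ) hcl) h2
  -- pointwise bound
  have hWP : ∀ᵐ x ∂μ, 0 ≤ (W x).re := by
    filter_upwards [hall] with x hx
    have h0 : (0 : ℕ → ℝ) ∈ wts r h ν m := by
      refine ⟨fun k => le_rfl, fun k _ => rfl, fun j ρ hρ => ?_⟩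
      simp only [Pi.zero_apply, zero_mul, Finset.sum_const_zero, mul_zero]
      apply Real.rpow_nonneg
      apply mul_nonneg hh0.le
      exact Finset.sum_nonneg fun k _ => Real.rpow_nonneg (hρ _) _
    exact (abs_nonneg _).trans (hx 0 h0).1
  have hpt : ∀ᵐ x ∂μ, h * ∑ k ∈ Finset.Ico ν (ν + m), ‖V k x‖ ^ r ≤ 2 * ‖W x‖ ^ r := by
    filter_upwards [hall, hWP] with x hx hW0
    have h1 := dual_abs hr1 hh0 hW0 (v := fun k => (V k x).re) fun φ hφ => (hx φ hφ).1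
    have h2 := dual_abs hr1 hh0 le_rfl (v := fun k => (V k x).im) fun φ hφ => (hx φ hφ).2
    rw [Real.zero_rpow hr0.ne', mul_zero] at h2
    have h3 : ∀ k ∈ Finset.Ico ν (ν + m), (V k x).im = 0 := by
      intro k hk
      have h4 : ∑ k ∈ Finset.Ico ν (ν + m), |(V k x).im| ^ r = 0 := by
        have h5 : 0 ≤ ∑ k ∈ Finset.Ico ν (ν + m), |(V k x).im| ^ r :=
          Finset.sum_nonneg fun k _ => by positivity
        nlinarith
      have h6 := (Finset.sum_eq_zero_iff_of_nonneg (fun k _ => by positivity)).mp h4 k hk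
      rw [Real.rpow_eq_zero (abs_nonneg _) hr0.ne'] at h6
      exact abs_eq_zero.mp h6
    have h4 : ∑ k ∈ Finset.Ico ν (ν + m), ‖V k x‖ ^ r = ∑ k ∈ Finset.Ico ν (ν + m), |(V k x).re| ^ r := by
      apply Finset.sum_congr rfl
      intro k hk
      congr 1
      have e : V k x = ((V k x).re : ℂ) := by
        apply Complex.ext
        · simp
        · simp [h3 k hk]
      rw [e, Complex.norm_real, Real.norm_eq_abs, Complex.ofReal_re]
    rw [h4]
    refine h1.trans ?_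
    gcongr
    exact (le_abs_self _).trans (Complex.abs_re_le_norm _)
  -- integrate
  have hint : h * ∑ k ∈ Finset.Ico ν (ν + m), ‖V k‖ ^ r ≤ 2 * ‖W‖ ^ r := by
    have h1 : ∫⁻ x, ∑ k ∈ Finset.Ico ν (ν + m), ENNReal.ofReal h * ‖V k x‖ₑ ^ r ∂μ ≤
        ∫⁻ x, 2 * ‖W x‖ₑ ^ r ∂μ := by
      apply lintegral_mono_ae
      filter_upwards [hpt] with x hx
      have h2 := ENNReal.ofReal_le_ofReal hx
      rw [ENNReal.ofReal_mul hh0.le, ENNReal.ofReal_sum_of_nonneg (fun i _ => by positivity),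
        Finset.mul_sum, ENNReal.ofReal_mul (by norm_num)] at h2
      simp only [← ENNReal.ofReal_rpow_of_nonneg (norm_nonneg _) hr0.le, ofReal_norm] at h2
      have h3 : ENNReal.ofReal 2 = 2 := by norm_num
      rw [h3] at h2
      exact h2
    have h2 : ∫⁻ x, ∑ k ∈ Finset.Ico ν (ν + m), ENNReal.ofReal h * ‖V k x‖ₑ ^ r ∂μ =
        ∑ k ∈ Finset.Ico ν (ν + m), ENNReal.ofReal h * ‖V k‖ₑ ^ r := by
      rw [lintegral_finsetSum']
      · apply Finset.sum_congr rfl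
        intro i _
        rw [lintegral_const_mul' _ _ ENNReal.ofReal_ne_top, enorm_rpow_Lp hp]
      · intro i _
        exact ((Lp.aestronglyMeasurable (V i)).enorm.pow_const r).const_mul _
    rw [h2, lintegral_const_mul' _ _ (by norm_num), ← enorm_rpow_Lp hp] at h1
    have h3 : ENNReal.ofReal (h * ∑ k ∈ Finset.Ico ν (ν + m), ‖V k‖ ^ r) ≤
        ENNReal.ofReal (2 * ‖W‖ ^ r) := by
      rw [ENNReal.ofReal_mul hh0.le, ENNReal.ofReal_sum_of_nonneg (fun i _ => by positivity),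
        Finset.mul_sum, ENNReal.ofReal_mul (by norm_num)]
      simp only [← ENNReal.ofReal_rpow_of_nonneg (norm_nonneg _) hr0.le, ofReal_norm]
      have h3 : ENNReal.ofReal 2 = 2 := by norm_num
      rw [h3]
      exact h1
    rwa [ENNReal.ofReal_le_ofReal_iff (by positivity)] at h3
  have hWn : ‖W‖ ≤ ‖T n‖ * ‖R‖ * (1 + 2 * c * ‖f₀‖) * ‖Φ‖ := by
    calc ‖W‖ ≤ ‖T n‖ * (‖R‖ * ‖Φ + ((2 * c * ‖Φ‖ : ℝ) : ℂ) • f₀‖) := by
          rw [hW]
          refine ((T _).le_opNorm _).trans ?_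
          gcongr
          exact R.le_opNorm _
      _ ≤ ‖T n‖ * (‖R‖ * (‖Φ‖ + 2 * c * ‖Φ‖ * ‖f₀‖)) := by
          gcongr
          refine (norm_add_le _ _).trans ?_
          rw [norm_smul, Complex.norm_real, Real.norm_of_nonneg (by positivity)]
      _ = _ := by ring
  calc h * ∑ k ∈ Finset.Ico ν (ν + m), ‖V k‖ ^ r ≤ 2 * ‖W‖ ^ r := hint
    _ ≤ 2 * (‖T n‖ * ‖R‖ * (1 + 2 * c * ‖f₀‖) * ‖Φ‖) ^ r := by gcongr
    _ = 2 * (‖T n‖ * ‖R‖ * (1 + 2 * c * ‖f₀‖)) ^ r * ‖Φ‖ ^ r := by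
        rw [Real.mul_rpow (by positivity) (norm_nonneg _)]; ring
    _ ≤ 2 * (‖T n‖ * ‖R‖ * (1 + 2 * c * ‖f₀‖)) ^ r * (h * ∑ i ∈ Finset.range ν, ‖G i‖ ^ r) := by
        gcongr

/-- An individually eventually positive semigroup on `L^p` whose generator has all `b ≥ 0` in its
resolvent set is bounded. -/
theorem bounded_of_resolvent (hp : p ≠ ∞) (hT : IsC0Semigroup T)
    (hpos : ∀ f ∈ posCone p μ, ∃ t₀ : ℝ≥0, ∀ t, t₀ ≤ t → T t f ∈ posCone p μ)
    (hres : ∀ b : ℝ, 0 ≤ b → ∃ R : Lp ℂ p μ →L[ℂ] Lp ℂ p μ, IsResolventAt T (b : ℂ) R) :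
    ∃ M : ℝ, ∀ t, ‖T t‖ ≤ M := by
  obtain ⟨n, c, hc, f₀, hf₀P, hf₀, hB⟩ := exists_baire isClosedCone_posCone hpos
  obtain ⟨R, hR⟩ := hres 0 le_rfl
  rw [Complex.ofReal_zero] at hR
  have hp1 : 1 ≤ p := Fact.out
  have hr1 : 1 ≤ p.toReal := by
    rw [← ENNReal.toReal_one]
    exact (ENNReal.toReal_le_toReal ENNReal.one_ne_top hp).mpr hp1
  exact bounded_of_convEstimate hT hr1 (by positivity)
    (convEstimate_Lp hp hT hres hR hc hf₀ hB) exists_decomp

end Pool.Agent.H21
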